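import Pool.Agent.H17.T4.Vel
import Pool.Agent.H19.V0B.Out

/-!
# The velocity of a target over one follower

`vel_one`: the velocity of the place `k + 1` in terms of the velocities of the places below `k`; the
place `k` follows its chart of the last window.
-/

set_option autoImplicit false

namespace Pool.VTL19

open Finset Real MvPolynomial
open Pool.Agent.H49.Ent Pool.Agent.H32.Dense Pool.STK Pool.KA Pool.KSAT Pool.K2S Pool.PB Pool.S6C
open Pool.GEN Pool.CHT Pool.CHX Pool.ISO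
open Pool.D2R
open Pool.END16 (cvg)
open Pool.V0Q (folN)

/-- **The velocity of the target**, in the form `cvg` of `ad_noY`. -/
theorem vel_one {m J : ℕ} {F : Fam m J} {c : ℕ → Fin m}
    {G : ℕ → PtT F → ℕ → MvPolynomial (Option (Fin m)) ℝ}
    {Q : PtT F → ℕ → MvPolynomial (Option (Fin m)) ℝ}
    {GN : PtT F → MvPolynomial (Option (Fin m)) ℝ} {kb kn k : ℕ}
    (hc : Set.InjOn c (Set.Iio (k + 1))) (g : ℕ → ℕ) (hb : ∀ y l, DepC c l (G kb y l))
    (hn : ∀ y l, DepC c l (G kn y l)) (hQd : ∀ y l, DepC c l (Q y l))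
    (hQb : ∀ y, ∀ l < k, Q y l = G kb y l) (hQN : ∀ y, Q y (k + 1) = GN y) (ω : F.Ω) :
    ∃ τ : ℝ, ∀ (V : Option (Fin m) → ℝ) (ε : ℕ → ℝ) (U : ℝ),
    (∀ l ≤ k + 1, |V (some (c l)) - dd (G kn (ptr F J ω) l) (bt F ω) V| ≤ ε l) →
    |gnh F c (k + 1) g (folN G GN kb kn k (k + 1)) (G kn) ω k| ≤ U →
    |V (some (c (k + 1))) - cvg c (k + 1) g (Q (ptr F J ω)) (bt F ω) (fun j => if j < k then
      gnh F c (k + 1) g (folN G GN kb kn k (k + 1)) (G kn) ω j else 0) τ V| ≤
      ε (k + 1) + U * (2 ^ g k * ε k) / 2 ^ g (k + 1) := by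
  obtain ⟨τ, hτ⟩ := Pool.T4E.vel_folN (F := F) (c := c) (G := G) (Q := Q) (kb := kb) (kn := kn)
    (k := k) (i := k + 1) (by omega) hc g hb hn hQd hQb ω
  refine ⟨τ / 2 ^ g (k + 1), fun V ε U hV hU => ?_⟩
  have hgn : ∀ j, Pool.T4E.gnq F c g G Q kb kn k (k + 1) ω j =
      gnh F c (k + 1) g (folN G GN kb kn k (k + 1)) (G kn) ω j := by
    intro j
    have e1 : (fun y => Q y (k + 1)) = GN := funext hQN
    unfold Pool.T4E.gnq
    rw [e1]
    rfl
  have h1 := hτ V ε U hV (fun l hl hl' => by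
    obtain rfl : l = k := by omega
    rw [hgn]
    exact hU)
  rw [Nat.Ico_succ_singleton, Finset.sum_singleton] at h1
  have hp : (0 : ℝ) < 2 ^ g (k + 1) := by positivity
  have e2 : V (some (c (k + 1))) - cvg c (k + 1) g (Q (ptr F J ω)) (bt F ω) (fun j => if j < k then
      gnh F c (k + 1) g (folN G GN kb kn k (k + 1)) (G kn) ω j else 0) (τ / 2 ^ g (k + 1)) V =
      (2 ^ g (k + 1) * (V (some (c (k + 1))) - dd (Q (ptr F J ω) (k + 1)) (bt F ω) V) -
      (τ * V none + ∑ j ∈ range k, Pool.T4E.gnq F c g G Q kb kn k (k + 1) ω j *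
        (2 ^ g j * (V (some (c j)) - dd (Q (ptr F J ω) j) (bt F ω) V)))) / 2 ^ g (k + 1) := by
    unfold Pool.END16.cvg
    rw [Finset.sum_range_succ]
    simp only [lt_irrefl, if_false, zero_mul, mul_zero, add_zero]
    have e3 : ∑ j ∈ range k, 2 ^ g j * ((if j < k then
        gnh F c (k + 1) g (folN G GN kb kn k (k + 1)) (G kn) ω j else 0) *
        (V (some (c j)) - dd (Q (ptr F J ω) j) (bt F ω) V)) =
        ∑ j ∈ range k, Pool.T4E.gnq F c g G Q kb kn k (k + 1) ω j *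
        (2 ^ g j * (V (some (c j)) - dd (Q (ptr F J ω) j) (bt F ω) V)) := by
      refine Finset.sum_congr rfl fun j hj => ?_
      rw [if_pos (mem_range.1 hj), hgn]
      ring
    rw [e3]
    field_simp
    ring
  rw [e2, abs_div, abs_of_pos hp, div_le_iff₀ hp]
  refine h1.trans (le_of_eq ?_)
  field_simp

end Pool.VTL19
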