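import Pool.Agent.H19.VTL.Lst
import Pool.Agent.H19.VTL.Vlo
import Pool.Agent.H92.V0F.Vsc

/-!
# A thin target over a faster coordinate: the class end

`V0uO`: the conclusion of the class theorem. `vtl_clsEnd`: a class whose large events have it at the
windows `0`, `nb`, `nb + n` is empty: the gradient of the target in the directions of the places below
`k` is closed, its component in the direction of the place `k` is compensated by the precision of the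
chart of this place at the last window.
-/

set_option autoImplicit false

namespace Pool.VTL19

open Finset Real MvPolynomial
open Pool.Agent.H49.Ent Pool.Agent.H32.Dense Pool.STK Pool.KA Pool.KSAT Pool.K2S Pool.PB Pool.S6C
open Pool.GEN Pool.CHT Pool.CHX Pool.ISO Pool.D2R
open Pool.V0Q (folN)
open Pool.V0B19 (V0E)
open Pool.PB.Trl (rt)
open Pool.LBT (ThrOf)

variable {m : ℕ}

/-- **The conclusion of the class theorem**: on a part of the event a closed label of the target with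
the output `V0E`. -/
def V0uO {J : ℕ} (F : Fam m J) (c : ℕ → Fin m) (k D' f₀ fn : ℕ) (s κ₂ ι φ w u K₂ : ℝ) (tie : Prop)
    (A : F.Ω → Prop) (g₀ : ℕ → ℕ → ℕ) (Gc : ℕ → PtT F → ℕ → MvPolynomial (Option (Fin m)) ℝ) :
    Prop :=
  ∃ (B : F.Ω → Prop) (GN : PtT F → MvPolynomial (Option (Fin m)) ℝ)
    (HN : LnT F → MvPolynomial (Option (Fin m)) ℝ), Sub B A ∧ Pe F.p A ≤ K₂ * Pe F.p B ∧
    (∀ y, (GN y).totalDegree ≤ D') ∧ (∀ s, (HN s).totalDegree ≤ D') ∧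
    (∀ y, DepC c (k + 1) (GN y)) ∧ (∀ s, DepC c (k + 1) (HN s)) ∧
    (∀ ω, B ω → GN (ptr F J ω) = HN (slam F ⌊w * J⌋₊ ω)) ∧
    V0E F c k D' s κ₂ ι φ w u tie 0 f₀ fn g₀ Gc GN B

/-- A power of two and its floor. -/
theorem pw_fl {x y J : ℝ} (h : x * J + 1 ≤ y * J) : (2 : ℝ) ^ (x * J) ≤ 2 ^ ⌊y * J⌋₊ := by
  rw [← Real.rpow_natCast]
  exact Real.rpow_le_rpow_of_exponent_le one_le_two (by
    have := (Nat.lt_floor_add_one (y * J)).le
    linarith)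

/-- **The class end.** -/
theorem vtl_clsEnd (m D D' k : ℕ) (hD : 1 ≤ D) (hDD : D ≤ D') : ∃ C : ℕ, 1 ≤ C ∧
    ∀ {S : PCl m} {P : List (Fin m) × Fin m → ℝ → ℝ → ℝ} {θ : ℝ} {c : ℕ → Fin m}
    {C₀ a' Eb ηm ζ : ℝ} {o η σ r₀ : ℕ → ℝ} {lv bb : ℕ → ℕ → ℝ} {Dr N nb n : ℕ} {a w : ℚ}
    {q₁ h h₂ e φ ι K₁ K₂ s κ₂ u : ℝ} {tie : Prop} (zz : ℕ → ℕ → ℕ → ℕ), S.Ne →
    (∀ (τ : ℝ) (J : ℕ) (F : Fam m J) (A : F.Ω → Prop), S.St τ J F A → 0 < Pe F.p A) →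
    ThrOf (chsys m θ) S P → TmH S → Set.InjOn c (Set.Iio (k + 1 + 1)) → D ≤ Dr →
    nb + n ≤ N → 1 ≤ n → (∀ t < nb + n, o t ≤ o (t + 1)) → 0 < ζ → C * (C₀ * ηm) ≤ ζ →
    C * φ ≤ ζ →
    (∀ t ≤ nb, ∀ l < k, C * |lv t l - o t - (lv nb l - o nb)| ≤ ζ) →
    (∀ t < n, ∀ l ≤ k + 1, C * |lv (nb + (t + 1)) l - lv (nb + t) l| ≤ ζ) →
    (∀ t < n, C * (lv (nb + t) k - lv (nb + t) (k + 1) -
      (lv (nb + n) k - lv (nb + n) (k + 1))) ≤ ζ) →
    (∀ t, t = nb ∨ t = nb + n → o t + C * ζ ≤ 1 ∧ ∀ l ≤ k + 1, C * ζ ≤ lv t l ∧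
      Eb + lv t l + C * ζ ≤ 1) →
    -- the numbers of the end
    o nb ≤ w → w ≤ o nb + ζ → 0 ≤ w → w ≤ a → a ≤ 1 → w < 1 → e < θ * w →
    0 < h → 0 ≤ h₂ → 0 ≤ q₁ → bet P c (k + 1) a w + h ≤ 1 →
    Eb + C * ζ + 2 * h₂ ≤ e →
    bet P c (k + 1) a w + h + C * ζ + 2 * h₂ ≤ lv nb (k + 1) + κ₂ * u + (a - w) →
    bet P c (k + 1) a w + h + C * ζ + 2 * h₂ ≤
      lv (nb + n) (k + 1) - (o (nb + n) - w) + (a - w) →
    bet P c (k + 1) a w + h + C * ζ + 2 * h₂ + q₁ ≤ lv nb (k + 1) + 2 * (a - w) →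
    q₁ + C * ζ ≤ a - w →
    (∀ l ≤ k + 1, Eb + lv nb l + 2 * (a - w) + C * ζ ≤ 1) →
    (∀ l ≤ k + 1, Eb + lv nb l + max (κ₂ * u) 0 + 2 * q₁ + C * ζ ≤ 1) →
    (∀ j < k + 1, lv nb j ≤ lv nb (k + 1) + ζ + h₂ ∨
      bet P c (k + 1) a w + h ≤ lv nb (k + 1) + (a - w) + ζ + h₂) →
    o nb + 2 * φ ≤ w → 0 < ι → ι * u < ζ → 0 < u → 0 < κ₂ → κ₂ ≤ (s - 1) / s / 2 → 0 < K₁ →
    0 < K₂ →
    -- the radii
    (∃ J₁ : ℕ, ∀ J ≥ J₁, (∀ t ≤ N, ∀ i ≤ 2, r₀ t * J ≤ zz J t i ∧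
        zz J t i ≤ ⌊a' * J⌋₊ - ⌊o t * J⌋₊) ∧
      (∀ t < nb + n, zz J t 0 = ⌊o (t + 1) * J⌋₊ - ⌊o t * J⌋₊) ∧ (zz J nb 1 : ℝ) ≤ q₁ * J ∧
      2 * φ * J + 1 ≤ zz J nb 1 ∧ ⌊o nb * J⌋₊ + zz J nb 2 ≤ ⌊(a : ℝ) * J⌋₊ ∧
      (a : ℝ) * J ≤ ⌊o nb * J⌋₊ + zz J nb 2 + ζ * J + 2) →
    -- the windows
    (∀ κ : ℝ, 0 < κ → Bas S (fun J F A => ∀ z : ℕ → ℕ → ℕ,
      (∀ t ≤ N, ∀ i ≤ 2, r₀ t * J ≤ z t i ∧ z t i ≤ ⌊a' * J⌋₊ - ⌊o t * J⌋₊) →
      ∃ (B : F.Ω → Prop) (g₀ : ℕ → ℕ → ℕ) (G : ℕ → PtT F → ℕ → MvPolynomial (Option (Fin m)) ℝ)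
        (H : ℕ → LnT F → ℕ → MvPolynomial (Option (Fin m)) ℝ), Sub B A ∧
        Pe F.p A ≤ K₁ * Pe F.p B ∧
        WinB F c (k + 1) D Dr N 2 C₀ a' Eb ηm o η σ lv bb κ z B g₀ G H)) →
    -- the class theorem
    Bas S (fun J F A => ∀ {κ : ℝ} {g₀ : ℕ → ℕ → ℕ}
      {Gc : ℕ → PtT F → ℕ → MvPolynomial (Option (Fin m)) ℝ}
      {H : ℕ → LnT F → ℕ → MvPolynomial (Option (Fin m)) ℝ}, κ ≤ 1 →
      WinB F c (k + 1) D Dr N 2 C₀ a' Eb ηm o η σ lv bb κ (zz J) A g₀ Gc H →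
      V0uO F c k D' nb (nb + n) s κ₂ ι φ (o nb) u K₂ tie A g₀ Gc) →
    False := by
  obtain ⟨Ca, hCa, had⟩ := Pool.END16.ad_noY m (D' + 1) D D' (k + 1) hD
  obtain ⟨Cr, hCr, hro⟩ := winb_rout m D (k + 1) hD
  obtain ⟨Cn, hCn, hnear⟩ := v0_near D k
  obtain ⟨Cl, hCl, hlast⟩ := last_bd D D' (k + 1) hDD
  obtain ⟨Cy, hCy⟩ : ∃ Cy : ℕ, Cy = 4 * (Cn + Cl + 4) := ⟨_, rfl⟩
  obtain ⟨C, hC⟩ : ∃ C : ℕ, C = ⌈Ca⌉₊ + 4 * Cr + 2 * Cy := ⟨_, rfl⟩
  have hCR : (C : ℝ) = ⌈Ca⌉₊ + 4 * Cr + 2 * Cy := by rw [hC]; push_cast; ring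
  have hCyR : (Cy : ℝ) = 4 * (Cn + Cl + 4) := by rw [hCy]; push_cast; ring
  have hCa0 : (0 : ℝ) ≤ ⌈Ca⌉₊ := Nat.cast_nonneg _
  have hCr1 : (1 : ℝ) ≤ Cr := by exact_mod_cast hCr
  have hCn1 : (1 : ℝ) ≤ Cn := by exact_mod_cast hCn
  have hCl1 : (1 : ℝ) ≤ Cl := by exact_mod_cast hCl
  have hCy1 : (24 : ℝ) ≤ Cy := by rw [hCyR]; linarith
  have hCaC : Ca ≤ C := by
    rw [hCR]
    have := Nat.le_ceil Ca
    linarith
  have hCrC : 4 * (Cr : ℝ) ≤ C := by rw [hCR]; linarith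
  have hCyC : 2 * (Cy : ℝ) ≤ C := by rw [hCR]; linarith
  have hC1 : (1 : ℝ) ≤ C := by linarith
  refine ⟨C, by omega, ?_⟩
  intro S P θ c C₀ a' Eb ηm ζ o η σ r₀ lv bb Dr N nb n a w q₁ h h₂ e φ ι K₁ K₂ s κ₂ u tie zz hne
    hpos hP hT hc hDr hN hn1 hmo hζ hCη hCφ hsl hstp hgain hroom w1 w2 w3 w4 w5 w6 w7 hh hh₂ hq₁
    hb1 hE1 g1 g2 g3 g4 g5 g6 g7 hφw hι hιζ hu hκ₂ hκs hK₁ hK₂ hzz hwin hV
  have hCaζ : Ca * ζ ≤ C * ζ := mul_le_mul_of_nonneg_right hCaC hζ.le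
  have hCζ : ζ ≤ C * ζ := le_mul_of_one_le_left hζ.le hC1
  have hs₁ : 0 < κ₂ * u := mul_pos hκ₂ hu
  have hιu : 0 < ι * u := mul_pos hι hu
  -- the exponent of the constants
  have hCη' : ∀ x : ℝ, 1 ≤ x → x ≤ C → x * (C₀ * ηm) ≤ ζ := by
    intro x h1 h2
    rcases le_or_gt (C₀ * ηm) 0 with h4 | h4
    · have : x * (C₀ * ηm) ≤ 0 := mul_nonpos_of_nonneg_of_nonpos (by linarith) h4
      linarith
    · exact (mul_le_mul_of_nonneg_right h2 h4.le).trans hCη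
  have hCη1 : C₀ * ηm ≤ ζ := by
    have := hCη' 1 le_rfl hC1
    rwa [one_mul] at this
  -- the outputs of the balls
  obtain ⟨ζr, hζr⟩ : ∃ ζr : ℝ, ζr = ζ / (4 * Cr) := ⟨_, rfl⟩
  have hζr0 : 0 < ζr := by rw [hζr]; positivity
  have hζrC : Cr * ζr = ζ / 4 := by rw [hζr]; field_simp
  obtain ⟨κ', hκ', hro⟩ := hro (S := S) (c := c) (C₀ := C₀) (a := a') (Eb := Eb) (ηm := ηm)
    (ζ := ζr) (κ₀ := 1 / (K₁ * K₂)) (o := o) (η := η) (σ := σ) (lv := lv) (Dr := Dr) (N := N)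
    (M := 2) [nb, nb + n] hT hc hDr hζr0 (by positivity) (by
      rw [hζr, le_div_iff₀ (by positivity), mul_comm]
      exact hCη' _ (by linarith) hCrC) (fun t ht => by
      have ht' : t = nb ∨ t = nb + n := by
        simpa using ht
      obtain ⟨a1, a2⟩ := hroom t ht'
      refine ⟨by omega, by rw [hζrC]; linarith, fun l hl => ⟨?_, ?_⟩⟩
      · rw [hζrC]
        linarith [(a2 l hl).1]
      · rw [hζrC]
        linarith [(a2 l hl).2])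
  obtain ⟨κ'', hκ''⟩ : ∃ κ'' : ℝ, κ'' = min κ' 1 := ⟨_, rfl⟩
  have hκ0 : 0 < κ'' := by rw [hκ'']; exact lt_min hκ' one_pos
  have hκa : κ'' ≤ κ' := by rw [hκ'']; exact min_le_left _ _
  have hκb : κ'' ≤ 1 := by rw [hκ'']; exact min_le_right _ _
  -- the closed gradient
  obtain ⟨δ, hδ, had⟩ := had (S := S) (P := P) (θ := θ) (c := c) (C₀ := C₀) (a' := a') (Eb := Eb)
    (ηm := ηm) (ζ := ζ) (o := o) (η := η) (σ := σ) (lv := lv) (r := k + 1) (Dr := Dr) (N := N)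
    (M := 2) (k₀ := nb) (n := nb + n) (a := a) (w := w) (q₁ := q₁) (s₁ := κ₂ * u) (h := h)
    (h₂ := h₂) (e := e) hP hT hc le_rfl (by omega) hN w1 w2 w3 w4 w5 w6 w7 hh hh₂ hζ hCη1 hq₁ hb1
    (by linarith) (by linarith) (by linarith) (by linarith) (by linarith)
    (fun l hl => by linarith [g5 l hl]) (fun l hl => by linarith [g6 l hl]) g7
  have hV' := bas_ev hV (κ := 1 / K₁) (by positivity)
  obtain ⟨J₁, hzz⟩ := hzz
  have hζι : 0 < ζ - ι * u := by linarith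
  obtain ⟨J₂, hJ₂⟩ := exists_nat_gt (max (((nb : ℝ) + n + 4) / (ζ / (2 * Cy)))
    (max (2 / (ζ - ι * u)) (Real.log (32 ^ 2 * (K₁ * K₂) + 1) / δ)))
  refine Pool.LBT.bas_false hne (Φ := fun _ _ _ => False) ?_ ⟨1, one_pos, 0,
    fun _ _ _ _ _ h => h⟩
  refine Bas.mono (max (max J₁ J₂) 1) (((hwin κ'' hκ0).and hV').and (hro.and (had.and
    (⟨1, one_pos, 0, fun J _ F A hA => hpos 1 J F A hA⟩ :
      Bas S (fun _ F A => 0 < Pe F.p A))))) ?_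
  rintro J hJ F A ⟨⟨b1, b3⟩, b4, b5, hA⟩
  have hJ1 : J₁ ≤ J := (le_max_left _ _).trans ((le_max_left _ _).trans hJ)
  have hJ2 : J₂ ≤ J := (le_max_right _ _).trans ((le_max_left _ _).trans hJ)
  have hJ3 : 1 ≤ J := (le_max_right _ _).trans hJ
  have hJ0 : (0 : ℝ) < J := by exact_mod_cast hJ3
  have hJ2R : (J₂ : ℝ) ≤ J := by exact_mod_cast hJ2
  have hp := Pe_nonneg F.isLaw
  obtain ⟨z1, z2, z3, z4, z5, z6⟩ := hzz J hJ1
  have j1 : ((nb : ℝ) + n + 4) ≤ ζ / (2 * Cy) * J := by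
    have h1 := ((le_max_left _ _).trans_lt hJ₂).le.trans hJ2R
    rwa [div_le_iff₀ (by positivity), mul_comm] at h1
  have j2 : 2 ≤ (ζ - ι * u) * J := by
    have h1 := (((le_max_left _ _).trans (le_max_right _ _)).trans_lt hJ₂).le.trans hJ2R
    rwa [div_le_iff₀ hζι, mul_comm] at h1
  have j3 : Real.log (32 ^ 2 * (K₁ * K₂) + 1) < δ * J := by
    have h1 := (((le_max_right _ _).trans (le_max_right _ _)).trans_lt hJ₂).trans_le hJ2R
    rw [div_lt_iff₀ hδ] at h1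
    linarith
  have hK12 : 0 < K₁ * K₂ := mul_pos hK₁ hK₂
  -- the events
  obtain ⟨B₀, g₀, G, H, hB₀, hPB₀, W⟩ := b1 (zz J) z1
  have hPB₀' : 1 / K₁ * Pe F.p A ≤ Pe F.p B₀ := by
    rw [one_div, inv_mul_le_iff₀ hK₁]
    exact hPB₀
  obtain ⟨B₁, GN, HN, hB₁, hPB₁, m1, m2, m3, m4, m5, hE⟩ := b3 B₀ hB₀ hPB₀' hκb W
  have hBA₁ : Sub B₁ A := fun ω hω => hB₀ ω (hB₁ ω hω)
  have hPB₁' : 1 / (K₁ * K₂) * Pe F.p A ≤ Pe F.p B₁ := by
    rw [one_div, inv_mul_le_iff₀ hK12]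
    calc Pe F.p A ≤ K₁ * Pe F.p B₀ := hPB₀
      _ ≤ K₁ * (K₂ * Pe F.p B₁) := mul_le_mul_of_nonneg_left hPB₁ hK₁.le
      _ = _ := by ring
  obtain ⟨Wn, mu, e1, e2, e3, e4⟩ := hE.cl
  obtain ⟨B₃, hB₃, hPB₃, hout⟩ := b4 (zz J) κ'' bb B₀ g₀ G H B₁ W hκa hB₀ hB₁ hPB₁'
  have hB₃₀ : Sub B₃ B₀ := fun ω hω => hB₁ ω (hB₃ ω hω)
  rw [hζrC] at hout
  -- the numbers
  have hpw : (2 : ℝ) ^ (-(κ₂ * u * J)) ≤ 2 ^ ⌊ζ * J⌋₊ / 2 ^ ⌊κ₂ * u * J⌋₊ := by
    have h1 : (2 : ℝ) ^ (-(κ₂ * u * J)) ≤ 1 / 2 ^ ⌊κ₂ * u * J⌋₊ := by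
      rw [Real.rpow_neg two_pos.le, ← one_div]
      refine one_div_le_one_div_of_le (by positivity) ?_
      rw [← Real.rpow_natCast]
      exact Real.rpow_le_rpow_of_exponent_le one_le_two (Nat.floor_le (by positivity))
    refine h1.trans (div_le_div_of_nonneg_right (one_le_pow₀ one_le_two) (by positivity))
  have hsm' : (2 : ℝ) ^ (-((s - 1) / s / 2 * u * J)) ≤ 2 ^ (-(κ₂ * u * J)) := by
    refine Real.rpow_le_rpow_of_exponent_le one_le_two ?_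
    have h1 := mul_le_mul_of_nonneg_right (mul_le_mul_of_nonneg_right hκs hu.le) hJ0.le
    linarith
  obtain ⟨gn, hgn⟩ : ∃ gn : F.Ω → ℕ → ℝ, gn = fun ω j => if j < k then
      gnh F c (k + 1) (g₀ nb) (folN G GN 0 (nb + n) k (k + 1)) (G (nb + n)) ω j else 0 := ⟨_, rfl⟩
  have gnl : ∀ ω, ∀ j < k, gn ω j =
      gnh F c (k + 1) (g₀ nb) (folN G GN 0 (nb + n) k (k + 1)) (G (nb + n)) ω j := fun ω j hj => by
    rw [hgn]
    exact if_pos hj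
  have gnk : ∀ ω, ∀ j, ¬ j < k → gn ω j = 0 := fun ω j hj => by
    rw [hgn]
    exact if_neg hj
  obtain ⟨mv, hmv⟩ : ∃ mv : LnT F → ℕ → Polynomial ℝ, mv = fun s j => if j < k then mu s j else 0 :=
    ⟨_, rfl⟩
  have mvl : ∀ s, ∀ j < k, mv s j = mu s j := fun s j hj => by
    rw [hmv]
    exact if_pos hj
  have mvk : ∀ s, ∀ j, ¬ j < k → mv s j = 0 := fun s j hj => by
    rw [hmv]
    exact if_neg hj
  have hζJ : 1 ≤ ζ * J := by
    have h1 : ζ / (2 * Cy) * J ≤ ζ * J := by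
      refine mul_le_mul_of_nonneg_right (div_le_self hζ.le ?_) hJ0.le
      linarith
    have h2 : (0 : ℝ) ≤ nb := Nat.cast_nonneg nb
    have h3 : (0 : ℝ) ≤ n := Nat.cast_nonneg n
    linarith
  have hmu : ∀ ω, B₃ ω → ∀ j < k + 1, |(mv (slam F Wn ω) j).eval (rt F Wn ω)| ≤
      2 ^ ⌊ζ * J⌋₊ := by
    intro ω hω j _
    by_cases hjk : j < k
    · rw [mvl _ j hjk]
      have h1 := e4 ω (hB₃ ω hω) j hjk
      have h2 := hE.bd ω (hB₃ ω hω) j hjk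
      have h3 : (2 : ℝ) ^ (-(κ₂ * u * J)) ≤ 1 := by
        rw [Real.rpow_neg two_pos.le]
        exact inv_le_one_of_one_le₀ (Real.one_le_rpow one_le_two (by positivity))
      have h4 : |(mu (slam F Wn ω) j).eval (rt F Wn ω)| ≤ 2 ^ (ι * u * J) + 1 := by
        have h5 : (mu (slam F Wn ω) j).eval (rt F Wn ω) =
          gnh F c (k + 1) (g₀ nb) (folN G GN 0 (nb + n) k (k + 1)) (G (nb + n)) ω j -
          (gnh F c (k + 1) (g₀ nb) (folN G GN 0 (nb + n) k (k + 1)) (G (nb + n)) ω j -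
            (mu (slam F Wn ω) j).eval (rt F Wn ω)) := by ring
        rw [h5]
        exact (abs_sub _ _).trans (by linarith)
      have h5 : (1 : ℝ) ≤ 2 ^ (ι * u * J) := Real.one_le_rpow one_le_two (by positivity)
      have h6 : (2 : ℝ) ^ (ι * u * J) * 2 ≤ 2 ^ ⌊ζ * J⌋₊ := by
        have h7 : (2 : ℝ) ^ (ι * u * J) * 2 = 2 ^ (ι * u * J + 1) := by
          rw [Real.rpow_add two_pos, Real.rpow_one]
        rw [h7, ← Real.rpow_natCast]
        refine Real.rpow_le_rpow_of_exponent_le one_le_two ?_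
        have h8 := (Nat.lt_floor_add_one (ζ * (J : ℝ))).le
        have h9 : (ζ - ι * u) * (J : ℝ) = ζ * J - ι * u * J := by ring
        linarith
      linarith
    · rw [mvk _ j hjk, Polynomial.eval_zero, abs_zero]
      positivity
  -- the windows
  have hmo' : ∀ t ≤ nb, o 0 ≤ o t := by
    intro t
    induction t with
    | zero => intro _; exact le_rfl
    | succ t ih => intro ht; exact (ih (by omega)).trans (hmo t (by omega))
  have hfl1 : ⌊o 0 * J⌋₊ ≤ ⌊o nb * J⌋₊ :=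
    Nat.floor_le_floor (mul_le_mul_of_nonneg_right (hmo' nb le_rfl) hJ0.le)
  have hWw : Wn ≤ ⌊(w : ℝ) * J⌋₊ := by
    refine Nat.le_floor (e2.trans (mul_le_mul_of_nonneg_right hφw hJ0.le))
  have hWJ : Wn ≤ J := by
    have h1 : (Wn : ℝ) ≤ J := by
      have h2 : (Wn : ℝ) ≤ w * J := e2.trans (mul_le_mul_of_nonneg_right hφw hJ0.le)
      have h3 : (w : ℝ) * J ≤ 1 * J := mul_le_mul_of_nonneg_right (by exact_mod_cast w6.le)
        hJ0.le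
      linarith
    exact_mod_cast h1
  have hWq : Wn ≤ ⌊o nb * J⌋₊ + zz J nb 1 := by
    have h1 := (Nat.lt_floor_add_one (o nb * (J : ℝ))).le
    have h2 : (Wn : ℝ) ≤ ((⌊o nb * J⌋₊ + zz J nb 1 : ℕ) : ℝ) := by
      push_cast
      have h3 : (o nb + 2 * φ) * (J : ℝ) = o nb * J + 2 * φ * J := by ring
      linarith
    exact_mod_cast h2
  -- the unit
  obtain ⟨Y, hY⟩ : ∃ Y : ℕ, Y = ⌊ζ / Cy * J⌋₊ := ⟨_, rfl⟩
  have hCy0 : (0 : ℝ) < Cy := by linarith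
  have e5 : ζ / Cy * J = 2 * (ζ / (2 * Cy) * J) := by
    field_simp
  have hn0 : (0 : ℝ) ≤ nb := Nat.cast_nonneg nb
  have hn0' : (0 : ℝ) ≤ n := Nat.cast_nonneg n
  have hYR : ζ / (2 * Cy) * J ≤ Y := by
    have h4 := (Nat.lt_floor_add_one (ζ / Cy * (J : ℝ))).le
    rw [← hY, e5] at h4
    linarith
  have hYle : Cy * (Y : ℝ) ≤ ζ * J := by
    have h4 : (Y : ℝ) ≤ ζ / Cy * J := by
      rw [hY]
      exact Nat.floor_le (by positivity)
    calc Cy * (Y : ℝ) ≤ Cy * (ζ / Cy * J) := mul_le_mul_of_nonneg_left h4 (by linarith)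
      _ = ζ * J := by field_simp
  have hlin : ∀ x : ℝ, 2 * Cy * x ≤ ζ → x * J ≤ Y := fun x hx => by
    refine le_trans (mul_le_mul_of_nonneg_right ?_ hJ0.le) hYR
    rw [le_div_iff₀ (by positivity)]
    linarith
  have hlinC : ∀ x : ℝ, C * x ≤ ζ → x * J ≤ Y := fun x hx => by
    rcases le_or_gt x 0 with h4 | h4
    · have h5 : x * J ≤ 0 := mul_nonpos_of_nonpos_of_nonneg h4 hJ0.le
      have h6 : (0 : ℝ) ≤ Y := Nat.cast_nonneg Y
      linarith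
    · exact hlin x ((mul_le_mul_of_nonneg_right hCyC h4.le).trans hx)
  have hY3 : 3 ≤ Y := by
    have h4 : (3 : ℝ) ≤ Y := by linarith
    exact_mod_cast h4
  have hY3R : (3 : ℝ) ≤ Y := by exact_mod_cast hY3
  have hηY : C₀ * (ηm * J) ≤ Y := by
    have := hlinC (C₀ * ηm) (hCη' _ hC1 le_rfl)
    rwa [mul_assoc] at this
  have h2Y : (Y : ℝ) ≤ 2 ^ Y := by exact_mod_cast Nat.lt_two_pow_self.le
  have hφY : (2 : ℝ) ^ (φ * J) ≤ 2 ^ Y := by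
    rw [← Real.rpow_natCast 2 Y]
    exact Real.rpow_le_rpow_of_exponent_le one_le_two (hlinC φ hCφ)
  -- the charts of the first window are near
  obtain ⟨κQ, -, hκQ⟩ := hnear W (fb := fun t => t) (jb := fun _ => 0) (nb := nb) (Y := Y) hc
    (by omega) (fun t ht => by omega) (fun t ht => ⟨by omega, z2 t (by omega), hmo t (by omega)⟩)
    hηY hY3 (by linarith)
    (fun t ht l hl => by
      have h4 := hsl t ht l hl
      have h6 := hlinC _ h4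
      have h7 := mul_le_mul_of_nonneg_right (le_abs_self (lv t l - o t - (lv nb l - o nb))) hJ0.le
      have h8 := mul_le_mul_of_nonneg_right (neg_le_abs (lv t l - o t - (lv nb l - o nb))) hJ0.le
      constructor
      · linarith
      · have h9 : lv nb l - o nb - (lv t l - o t) = -(lv t l - o t - (lv nb l - o nb)) := by ring
        rw [h9]
        linarith)
  have hCnY : Cn * Y ≤ ⌊ζ * J⌋₊ := Nat.le_floor (by
    push_cast
    refine le_trans (mul_le_mul_of_nonneg_right ?_ (Nat.cast_nonneg Y)) hYle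
    rw [hCyR]
    linarith)
  have hYf : Y ≤ ⌊ζ * J⌋₊ := Nat.le_floor (by
    refine le_trans ?_ hYle
    exact le_mul_of_one_le_left (Nat.cast_nonneg Y) (by linarith))
  -- the frame
  obtain ⟨Q, hQ⟩ : ∃ Q : PtT F → ℕ → MvPolynomial (Option (Fin m)) ℝ, Q = fun y l =>
    if l ≤ k then hyb G 0 nb k y l else GN y := ⟨_, rfl⟩
  obtain ⟨HQ, hHQ⟩ : ∃ HQ : LnT F → ℕ → MvPolynomial (Option (Fin m)) ℝ, HQ = fun s l =>
    if l ≤ k then hybH H 0 nb k ⌊o 0 * J⌋₊ ⌊o nb * J⌋₊ Wn s l else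
      HN (Pool.AVG57.upw ⌊o nb * J⌋₊ Wn s) := ⟨_, rfl⟩
  have Ql : ∀ y, ∀ l ≤ k, Q y l = hyb G 0 nb k y l := fun y l hl => by
    rw [hQ]
    exact if_pos hl
  have Qr : ∀ y, ∀ l, k < l → Q y l = GN y := fun y l hl => by
    rw [hQ]
    exact if_neg (by omega)
  have HQl : ∀ s, ∀ l ≤ k, HQ s l = hybH H 0 nb k ⌊o 0 * J⌋₊ ⌊o nb * J⌋₊ Wn s l :=
    fun s l hl => by
      rw [hHQ]
      exact if_pos hl
  have HQr : ∀ s, ∀ l, k < l → HQ s l = HN (Pool.AVG57.upw ⌊o nb * J⌋₊ Wn s) :=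
    fun s l hl => by
      rw [hHQ]
      exact if_neg (by omega)
  have hQdeg : ∀ y l, (Q y l).totalDegree ≤ D' := fun y l => by
    rcases Nat.lt_or_ge k l with hl | hl
    · rw [Qr y l hl]
      exact m1 y
    · rw [Ql y l hl]
      exact (hyb_deg W (by omega) (by omega) y l).trans hDD
  have hQdep : ∀ y l, DepC c l (Q y l) := fun y l => by
    rcases Nat.lt_or_ge k l with hl | hl
    · rw [Qr y l hl]
      exact Pool.T4E.depC_mono (by omega) (m3 y)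
    · rw [Ql y l hl]
      exact hyb_dep W (by omega) (by omega) y l
  -- the velocities
  have hc' : Set.InjOn c (Set.Iio (k + 1)) := hc.mono fun y hy => by
    rw [Set.mem_Iio] at hy ⊢
    omega
  have hvl := fun ω => vel_one (F := F) (c := c) (G := G) (Q := Q) (GN := GN) (kb := 0)
    (kn := nb + n) (k := k) hc' (g₀ nb) (fun y l => (W.ev 0 (by omega)).ball.depG y l)
    (fun y l => (W.ev (nb + n) hN).ball.depG y l) hQdep (fun y l hl => by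
      rw [Ql y l hl.le, hyb_lo G hl]) (fun y => Qr y (k + 1) (by omega)) ω
  choose τ hτ using hvl
  obtain ⟨U, hU⟩ : ∃ U : ℝ, U = (lv (nb + n) k - lv (nb + n) (k + 1) -
    (lv nb k - lv nb (k + 1))) * J := ⟨_, rfl⟩
  have W₁ : WinB F c (k + 1) D Dr N 2 C₀ a' Eb ηm o η σ lv bb (κ'' * K₂) (zz J) B₁ g₀ G H :=
    W.res (κ₁ := 1 / K₂) hB₁ (by
      rw [one_div, inv_mul_le_iff₀ hK₂]
      exact hPB₁) (by positivity) (by
      rw [mul_assoc, mul_one_div_cancel hK₂.ne', mul_one])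
  have hlst : ∀ ω, B₁ ω → |gnh F c (k + 1) (g₀ nb) (folN G GN 0 (nb + n) k (k + 1))
      (G (nb + n)) ω k| ≤ 2 ^ (Cl * Y) * (2 : ℝ) ^ U := by
    refine hlast W₁ (GN := GN) (κN := fun _ => 0) (f := fun t => nb + t) (jj := fun _ => 0)
      (k := k) (n := n) (Y := Y) (U := U) le_rfl hc hn1 (fun t ht => by
        show nb + t ≤ N
        omega) (fun t ht => ⟨by omega, z2 (nb + t) (by omega), hmo (nb + t) (by omega)⟩) hηY hY3
      (by linarith) (fun t ht l hl => ?_) m1 m3 (fun ω hω x hx => ?_) (fun t ht => ?_)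
      (folN G GN 0 (nb + n) k (k + 1)) (fun y l => ?_) (fun y => ?_)
    · have h4 := hstp t ht l hl
      have h6 := hlinC _ h4
      have h7 := mul_le_mul_of_nonneg_right (le_abs_self (lv (nb + (t + 1)) l - lv (nb + t) l))
        hJ0.le
      have h8 := mul_le_mul_of_nonneg_right (neg_le_abs (lv (nb + (t + 1)) l - lv (nb + t) l))
        hJ0.le
      show (lv (nb + (t + 1)) l - lv (nb + t) l) * J ≤ Y ∧
        (lv (nb + t) l - lv (nb + (t + 1)) l) * J ≤ Y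
      constructor
      · linarith
      · have h9 : lv (nb + t) l - lv (nb + (t + 1)) l = -(lv (nb + (t + 1)) l - lv (nb + t) l) := by
          ring
        rw [h9]
        linarith
    · rw [add_zero]
      exact (hE.near ω hω x hx).trans (div_le_div_of_nonneg_right hφY (by positivity))
    · show (lv (nb + t) k - lv (nb + t) (k + 1) - (lv nb k - lv nb (k + 1))) * J ≤ U + Y
      have h4 := hlinC _ (hgain t ht)
      rw [hU]
      have h5 : (lv (nb + t) k - lv (nb + t) (k + 1) - (lv nb k - lv nb (k + 1))) * (J : ℝ) =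
        (lv (nb + n) k - lv (nb + n) (k + 1) - (lv nb k - lv nb (k + 1))) * J +
        (lv (nb + t) k - lv (nb + t) (k + 1) - (lv (nb + n) k - lv (nb + n) (k + 1))) * J := by
        ring
      rw [h5]
      linarith
    · unfold Pool.V0Q.folN
      split_ifs
      · exact (W.ev 0 (by omega)).ball.depG y l
      · exact (W.ev (nb + n) hN).ball.depG y l
      · exact Pool.T4E.depC_mono (by omega) (m3 y)
    · unfold Pool.V0Q.folN
      rw [if_neg (by omega), if_neg (by omega)]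
  have hvel : ∀ ω ν, B₃ ω → B₃ ν → ptr F J ω = ptr F J ν →
      |bd F ν (some (c (k + 1))) - Pool.END16.cvg c (k + 1) (g₀ nb) (Q (ptr F J ω)) (bt F ω)
        (gn ω) (τ ω) (bd F ν)| ≤ 2 ^ ⌊ζ * J⌋₊ * 2 ^ ⌊o (nb + n) * J⌋₊ / 2 ^ g₀ (nb + n) (k + 1) := by
    intro ω ν hω hν hpt
    have h1 := hτ ω (bd F ν) (fun l => 2 ^ ⌊ζ / 4 * J⌋₊ * 2 ^ ⌊o (nb + n) * J⌋₊ / 2 ^ g₀ (nb + n) l)
      (2 ^ (Cl * Y) * (2 : ℝ) ^ U) (fun l hl =>
        ROut1.vel (hout (nb + n) (by simp)) ω ν hω hν hpt l hl) (hlst ω (hB₃ ω hω))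
    rw [hgn]
    refine h1.trans ?_
    obtain ⟨X, hX⟩ : ∃ X : ℝ, X = 2 ^ ⌊o (nb + n) * J⌋₊ / 2 ^ g₀ (nb + n) (k + 1) := ⟨_, rfl⟩
    have hX0 : 0 < X := by rw [hX]; positivity
    have e6 : (2 : ℝ) ^ ⌊ζ / 4 * J⌋₊ * 2 ^ ⌊o (nb + n) * J⌋₊ / 2 ^ g₀ (nb + n) (k + 1) =
        2 ^ ⌊ζ / 4 * J⌋₊ * X := by rw [hX]; ring
    have e7 : (2 : ℝ) ^ ⌊ζ * J⌋₊ * 2 ^ ⌊o (nb + n) * J⌋₊ / 2 ^ g₀ (nb + n) (k + 1) =
        2 ^ ⌊ζ * J⌋₊ * X := by rw [hX]; ring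
    have e8 : (2 : ℝ) ^ (Cl * Y) * (2 : ℝ) ^ U * (2 ^ g₀ nb k * (2 ^ ⌊ζ / 4 * J⌋₊ *
        2 ^ ⌊o (nb + n) * J⌋₊ / 2 ^ g₀ (nb + n) k)) / 2 ^ g₀ nb (k + 1) =
        2 ^ ⌊ζ / 4 * J⌋₊ * (2 ^ (Cl * Y) * (2 ^ (U + (g₀ nb k - g₀ nb (k + 1)) -
          (g₀ (nb + n) k - g₀ (nb + n) (k + 1))) * X)) := by
      rw [hX, Real.rpow_sub two_pos, Real.rpow_add two_pos, Real.rpow_sub two_pos,
        Real.rpow_sub two_pos, Real.rpow_natCast, Real.rpow_natCast, Real.rpow_natCast,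
        Real.rpow_natCast]
      field_simp
    rw [e6, e7, e8]
    have h2 : (2 : ℝ) ^ (U + (g₀ nb k - g₀ nb (k + 1)) -
        (g₀ (nb + n) k - g₀ (nb + n) (k + 1))) ≤ 2 ^ (2 * Y) := by
      rw [← Real.rpow_natCast 2 (2 * Y)]
      refine Real.rpow_le_rpow_of_exponent_le one_le_two ?_
      have s1 := (W.sds nb (by omega) k (by omega)).2
      have s2 := (W.sds nb (by omega) (k + 1) le_rfl).1
      have s3 := (W.sds (nb + n) hN k (by omega)).1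
      have s4 := (W.sds (nb + n) hN (k + 1) le_rfl).2
      have s5 := mul_le_mul_of_nonneg_right (W.hσ nb (by omega)).2 hJ0.le
      have s6 := mul_le_mul_of_nonneg_right (W.hσ (nb + n) hN).2 hJ0.le
      have hηm0 : 0 ≤ ηm := (W.hη nb (by omega)).1.trans (W.hη nb (by omega)).2
      have s7 : ηm * J ≤ C₀ * (ηm * J) :=
        le_mul_of_one_le_left (mul_nonneg hηm0 hJ0.le) W.C1
      have u1 : (lv nb (k + 1) - σ nb) * (J : ℝ) = lv nb (k + 1) * J - σ nb * J := by ring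
      have u2 : (lv (nb + n) k - σ (nb + n)) * (J : ℝ) = lv (nb + n) k * J - σ (nb + n) * J := by
        ring
      have u3 : U = lv (nb + n) k * J - lv (nb + n) (k + 1) * J -
          (lv nb k * J - lv nb (k + 1) * J) := by rw [hU]; ring
      rw [u1] at s2
      rw [u2] at s3
      push_cast
      linarith
    have h3 : (2 : ℝ) ^ (Cl * Y) * (2 ^ (U + (g₀ nb k - g₀ nb (k + 1)) -
        (g₀ (nb + n) k - g₀ (nb + n) (k + 1))) * X) ≤ 2 ^ (Cl * Y) * (2 ^ (2 * Y) * X) :=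
      mul_le_mul_of_nonneg_left (mul_le_mul_of_nonneg_right h2 hX0.le) (by positivity)
    have h4 : (1 : ℝ) ≤ 2 ^ (Cl * Y) * 2 ^ (2 * Y) :=
      one_le_mul_of_one_le_of_one_le (one_le_pow₀ one_le_two) (one_le_pow₀ one_le_two)
    have h5 : (2 : ℝ) ^ ⌊ζ / 4 * J⌋₊ * (2 * (2 ^ (Cl * Y) * 2 ^ (2 * Y))) ≤ 2 ^ ⌊ζ * J⌋₊ := by
      rw [← pow_add, ← pow_succ', ← pow_add]
      refine pow_le_pow_right₀ one_le_two (Nat.le_floor ?_)
      push_cast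
      have t1 : (⌊ζ / 4 * J⌋₊ : ℝ) ≤ ζ / 4 * J := Nat.floor_le (by positivity)
      have t2 : (Cl + 4) * (Y : ℝ) ≤ ζ / 4 * J := by
        have t3 : 4 * ((Cl + 4) * (Y : ℝ)) ≤ Cy * Y := by
          have t4 : 4 * ((Cl : ℝ) + 4) ≤ Cy := by rw [hCyR]; linarith
          calc 4 * ((Cl + 4) * (Y : ℝ)) = 4 * ((Cl : ℝ) + 4) * Y := by ring
            _ ≤ _ := mul_le_mul_of_nonneg_right t4 (Nat.cast_nonneg Y)
        linarith
      have t5 : (Cl + 4) * (Y : ℝ) = Cl * Y + 4 * Y := by ring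
      rw [t5] at t2
      linarith
    calc 2 ^ ⌊ζ / 4 * J⌋₊ * X + 2 ^ ⌊ζ / 4 * J⌋₊ * (2 ^ (Cl * Y) * (2 ^ (U + (g₀ nb k -
          g₀ nb (k + 1)) - (g₀ (nb + n) k - g₀ (nb + n) (k + 1))) * X)) ≤
        2 ^ ⌊ζ / 4 * J⌋₊ * ((2 ^ (Cl * Y) * 2 ^ (2 * Y)) * X) +
          2 ^ ⌊ζ / 4 * J⌋₊ * (2 ^ (Cl * Y) * (2 ^ (2 * Y) * X)) :=
          add_le_add (mul_le_mul_of_nonneg_left (le_mul_of_one_le_left hX0.le h4) (by positivity))
            (mul_le_mul_of_nonneg_left h3 (by positivity))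
      _ = 2 ^ ⌊ζ / 4 * J⌋₊ * (2 * (2 ^ (Cl * Y) * 2 ^ (2 * Y))) * X := by ring
      _ ≤ _ := mul_le_mul_of_nonneg_right h5 hX0.le
  -- the contradiction
  have hfin := b5 (zz J) κ'' bb B₀ g₀ G H 1 2 Wn W hB₀ (by norm_num) le_rfl z3 z5 z6 e1 hWw hWq B₃
    Q HQ (fun ω l => if l ≤ k then κQ ω l else 0) gn τ mv hB₃₀
    ((hout nb (by simp)).mono (Nat.floor_le_floor (mul_le_mul_of_nonneg_right (by linarith)
      hJ0.le))) hvel hQdeg hQdep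
    (fun s' l => by
      rcases Nat.lt_or_ge k l with hl | hl
      · rw [HQr s' l hl]
        exact m2 _
      · rw [HQl s' l hl]
        exact (hybH_deg W (by omega) (by omega) s' l).trans hDD)
    (fun s' l => by
      rcases Nat.lt_or_ge k l with hl | hl
      · rw [HQr s' l hl]
        exact Pool.T4E.depC_mono (by omega) (m4 _)
      · rw [HQl s' l hl]
        exact hybH_dep W (by omega) (by omega) s' l)
    (fun ω hω l hl => by
      rcases Nat.lt_or_ge k l with hl' | hl'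
      · rw [Qr _ l hl', HQr _ l hl', Pool.AVG57.upw_slam F e1 hWJ]
        exact m5 ω (hB₃ ω hω)
      · rw [Ql _ l hl', HQl _ l hl']
        exact hyb_cls W (by omega) (by omega) (by omega) (hfl1.trans e1) e1 hWJ (hB₃₀ ω hω) hl')
    (fun ω hω l hl b hb => by
      rcases Nat.lt_or_ge k l with hl' | hl'
      · obtain rfl : l = k + 1 := by omega
        rw [if_neg (by omega), add_zero, Qr _ _ hl']
        exact (hE.near ω (hB₃ ω hω) b hb).trans (div_le_div_of_nonneg_right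
          (hφY.trans (pow_le_pow_right₀ (by norm_num) hYf)) (by positivity))
      · rw [if_pos hl', Ql _ _ hl']
        exact (hκQ ω (hB₃₀ ω hω) l hl' b hb).trans (div_le_div_of_nonneg_right
          (pow_le_pow_right₀ (by norm_num) hCnY) (by positivity)))
    (fun s' l => by
      by_cases hl : l < k
      · rw [mvl _ l hl]
        exact e3 s' l
      · rw [mvk _ l hl, Polynomial.natDegree_zero]
        exact Nat.zero_le _)
    (fun ω hω j hj => by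
      by_cases hjk : j < k
      · rw [gnl ω j hjk, mvl _ j hjk]
        exact (e4 ω (hB₃ ω hω) j hjk).trans hpw
      · rw [gnk ω j hjk, mvk _ j hjk, Polynomial.eval_zero, sub_zero, abs_zero]
        positivity) hmu
    (fun ω ν hω hν hpt j hj => by
      by_cases hjk : j < k
      · rw [gnl ω j hjk, gnl ν j hjk]
        exact ((hE.sm ω ν (hB₃ ω hω) (hB₃ ν hν) hpt j hjk).trans hsm').trans hpw
      · rw [gnk ω j hjk, gnk ν j hjk, sub_self, abs_zero]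
        positivity)
  have hPA : Pe F.p A ≤ 32 ^ 2 * (K₁ * K₂) * Pe F.p B₃ := by
    have h1 : Pe F.p A ≤ K₁ * K₂ * Pe F.p B₁ := by
      rw [one_div, inv_mul_le_iff₀ hK12] at hPB₁'
      exact hPB₁'
    have h2 : Pe F.p B₁ ≤ 32 ^ 2 * Pe F.p B₃ := by simpa using hPB₃
    calc Pe F.p A ≤ K₁ * K₂ * Pe F.p B₁ := h1
      _ ≤ K₁ * K₂ * (32 ^ 2 * Pe F.p B₃) := mul_le_mul_of_nonneg_left h2 (by positivity)
      _ = _ := by ring
  have hex : (32 ^ 2 * (K₁ * K₂) + 1) * Real.exp (-(δ * J)) < 1 := by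
    rw [Real.exp_neg, ← div_eq_mul_inv, div_lt_one (Real.exp_pos _)]
    rw [← Real.log_lt_iff_lt_exp (by positivity)]
    exact j3
  have h1 : Pe F.p A ≤ 32 ^ 2 * (K₁ * K₂) * (Real.exp (-(δ * J)) * Pe F.p A) :=
    hPA.trans (mul_le_mul_of_nonneg_left hfin (by positivity))
  have h2 : (32 ^ 2 * (K₁ * K₂)) * Real.exp (-(δ * J)) < 1 := by
    have := Real.exp_pos (-(δ * (J : ℝ)))
    linarith
  have h3 : 32 ^ 2 * (K₁ * K₂) * (Real.exp (-(δ * J)) * Pe F.p A) =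
      (32 ^ 2 * (K₁ * K₂)) * Real.exp (-(δ * J)) * Pe F.p A := by ring
  rw [h3] at h1
  have h4 : (32 ^ 2 * (K₁ * K₂)) * Real.exp (-(δ * J)) * Pe F.p A < 1 * Pe F.p A :=
    mul_lt_mul_of_pos_right h2 hA
  linarith

end Pool.VTL19
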