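import Pool.Agent.H66.NDD.Ncp
import Pool.Agent.H64.GF.Gfr

/-!
# The last component of the gradient of a target over a faster follower

`gnh_last`: the last natural component of the relative gradient is a derivative; it does not depend on
the frame. `last_bd`: its bound along a path of windows, by the largest gain of the follower over the
target.
-/

set_option autoImplicit false

namespace Pool.VTL19

open Finset Real MvPolynomial
open Pool.Agent.H49.Ent Pool.Agent.H32.Dense Pool.STK Pool.KA Pool.KSAT Pool.K2S Pool.PB Pool.S6C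
open Pool.GEN Pool.CHT Pool.CHX Pool.ISO
open Pool.D2R
open Pool.GF64 (fol gfr)

/-- The last natural component is a derivative. -/
theorem gnh_last {m J : ℕ} {F : Fam m J} {c : ℕ → Fin m} {k : ℕ}
    (hc : Set.InjOn c (Set.Iio (k + 1))) (γ : ℕ → ℕ)
    {G G' : PtT F → ℕ → MvPolynomial (Option (Fin m)) ℝ} (hG : ∀ y l, DepC c l (G y l))
    (hG' : ∀ y l, DepC c l (G' y l)) (ω : F.Ω) :
    gnh F c (k + 1) γ G G' ω k = 2 ^ γ (k + 1) / 2 ^ γ k *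
      eval (bt F ω) (pderiv (some (c k)) (G' (ptr F J ω) (k + 1) - G (ptr F J ω) (k + 1))) := by
  unfold gnh
  rw [Pool.NDD66.ncp_last hc (hG _) (fun b b' h1 h2 => by
    rw [map_sub, map_sub, hG' _ (k + 1) b b' h1 h2, hG _ (k + 1) b b' h1 h2])]

/-- One step: the derivative of the difference of a chart and the chart of the next window. -/
theorem last_step (D D' r : ℕ) : ∃ C : ℕ, 1 ≤ C ∧ ∀ {m J : ℕ} {F : Fam m J} {c : ℕ → Fin m}
    {Dr N M : ℕ} {C₀ a Eb ηm : ℝ} {o η σ : ℕ → ℝ} {lv b : ℕ → ℕ → ℝ} {κ : ℝ}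
    {z : ℕ → ℕ → ℕ} {B : F.Ω → Prop} {g₀ : ℕ → ℕ → ℕ}
    {G : ℕ → PtT F → ℕ → MvPolynomial (Option (Fin m)) ℝ}
    {H : ℕ → LnT F → ℕ → MvPolynomial (Option (Fin m)) ℝ}
    (_ : WinB F c r D Dr N M C₀ a Eb ηm o η σ lv b κ z B g₀ G H)
    {GN : PtT F → MvPolynomial (Option (Fin m)) ℝ} {κN : F.Ω → ℝ} {k f₀ f₁ j Y : ℕ},
    k + 1 ≤ r → Set.InjOn c (Set.Iio (r + 1)) → f₀ ≤ N → f₁ ≤ N → j ≤ M →
    z f₀ j = ⌊o f₁ * J⌋₊ - ⌊o f₀ * J⌋₊ → o f₀ ≤ o f₁ →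
    C₀ * (ηm * J) ≤ Y → 3 ≤ Y →
    (∀ l ≤ k + 1, (lv f₁ l - lv f₀ l) * J ≤ Y ∧ (lv f₀ l - lv f₁ l) * J ≤ Y) →
    (∀ y, (GN y).totalDegree ≤ D') → (∀ y, DepC c (k + 1) (GN y)) →
    (∀ ω, B ω → ∀ x, NBx c (G f₀ (ptr F J ω)) (g₀ f₀) ⌊o f₀ * J⌋₊ (F.t ω) (k + 1) x →
      |eval x (GN (ptr F J ω)) + κN ω - eval x (G f₀ (ptr F J ω) (k + 1))| ≤
        2 ^ Y / 2 ^ g₀ f₀ (k + 1)) →
    ∀ ω, B ω → |eval (bt F ω) (pderiv (some (c k)) (G f₁ (ptr F J ω) (k + 1) -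
      GN (ptr F J ω)))| ≤ 2 ^ (C * Y) * (2 ^ g₀ f₀ k / 2 ^ g₀ f₀ (k + 1)) := by
  obtain ⟨C, hC, hg⟩ := gfr D D' r
  refine ⟨2 * C, by omega, ?_⟩
  intro m J F c Dr N M C₀ a Eb ηm o η σ lv b κ z B g₀ G H W GN κN k f₀ f₁ j Y hkr hc hf₀ hf₁ hj hz
    ho hCη hY hlv hdN hpN hnN ω hω
  have hY0 : (0 : ℝ) ≤ Y := Nat.cast_nonneg Y
  have hY3 : (3 : ℝ) ≤ Y := by exact_mod_cast hY
  have h2Y : (((2 * Y : ℕ)) : ℝ) = 2 * Y := by push_cast; ring
  obtain ⟨f, hf⟩ : ∃ f : ℕ → ℕ, f = fun s => if s = 0 then f₀ else f₁ := ⟨_, rfl⟩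
  have e0 : f 0 = f₀ := by rw [hf]; rfl
  have e1 : f 1 = f₁ := by rw [hf]; rfl
  have hc' : Set.InjOn c (Set.Iio (k + 1)) := hc.mono fun y hy => by
    rw [Set.mem_Iio] at hy ⊢
    omega
  have h1 := (hg W (GN := GN) (κN := κN) (fb := fun _ => f₀) (jb := fun _ => 0) (f := f)
    (jj := fun _ => j) (k := 0) (i := k + 1) (nb := 0) (n := 1) (ks := 0) (q := 3) (X := 0)
    (Y := 2 * Y) (S := 0) (b' := 0) (Nat.zero_le _) hkr (fun _ _ => hf₀)
    (fun t ht => absurd ht (Nat.not_lt_zero t)) (by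
      rw [Nat.cast_zero]
      positivity) (fun t _ l hl => absurd hl (Nat.not_lt_zero l)) e0 hc le_rfl (fun t ht => by
      rcases (show t = 0 ∨ t = 1 by omega) with rfl | rfl
      · rw [e0]; exact hf₀
      · rw [e1]; exact hf₁) (fun t ht => by
      obtain rfl : t = 0 := by omega
      rw [e0, show (0 : ℕ) + 1 = 1 from rfl, e1]
      exact ⟨hj, hz, ho⟩) (by rw [h2Y]; linarith) (by omega) (by
      rw [Nat.cast_one]
      exact one_le_pow₀ (by norm_num)) le_rfl le_rfl (fun t ht l hl => by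
      obtain rfl : t = 0 := by omega
      rw [e0, show (0 : ℕ) + 1 = 1 from rfl, e1, h2Y]
      obtain ⟨a1, a2⟩ := hlv l hl
      constructor <;> linarith) (fun t _ => by
      rw [zero_mul, h2Y]
      linarith) (fun t t' _ _ l hl => absurd hl (Nat.not_lt_zero l)) (fun t t' h1 h2 l _ hl => by
      rw [zero_mul, h2Y]
      rcases (show t = t' ∨ (t = 0 ∧ t' = 1) by omega) with rfl | ⟨rfl, rfl⟩
      · rw [sub_self, zero_mul]
        linarith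
      · rw [e0, e1]
        obtain ⟨a1, a2⟩ := hlv l hl
        linarith) hdN hpN (fun ω hω x hx => by
      rw [e0] at hx ⊢
      refine (hnN ω hω x hx).trans (div_le_div_of_nonneg_right ?_ (by positivity))
      exact pow_le_pow_right₀ (by norm_num) (by omega)) (by rw [zero_mul]; norm_num) (by
      rw [zero_mul, h2Y]
      push_cast
      linarith) (by omega) (by omega) (by
      rw [sub_self, zero_mul, h2Y, Nat.cast_zero]
      linarith)).1 ω hω k (by omega) (fun _ t t' h1 h2 l hl1 hl2 => by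
      obtain rfl : l = k + 1 := by omega
      rw [h2Y]
      rcases (show t = t' ∨ (t = 0 ∧ t' = 1) by omega) with rfl | ⟨rfl, rfl⟩
      · rw [sub_self, sub_self]
        linarith
      · rw [e0, e1]
        obtain ⟨a1, a2⟩ := hlv k (by omega)
        obtain ⟨a3, a4⟩ := hlv (k + 1) le_rfl
        linarith)
  rw [e0, e1, gnh_last hc' (g₀ f₀) (G := fol G GN f₀ f₁ 0 (k + 1)) (G' := G f₁)
    (fun y l => by
      unfold Pool.GF64.fol
      split_ifs with h2 h3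
      · exact (W.ev f₀ hf₀).ball.depG y l
      · exact (W.ev f₁ hf₁).ball.depG y l
      · exact Pool.GF64.depC_mono (hpN y) (by omega))
    (fun y l => (W.ev f₁ hf₁).ball.depG y l)] at h1
  have e2 : fol G GN f₀ f₁ 0 (k + 1) (ptr F J ω) (k + 1) = GN (ptr F J ω) := by
    unfold Pool.GF64.fol
    rw [if_neg (by omega), if_neg (by omega)]
  rw [e2, abs_mul, abs_of_pos (by positivity)] at h1
  have e3 : C * (2 * Y) = 2 * C * Y := by ring
  rw [e3] at h1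
  have p1 : (0 : ℝ) < 2 ^ g₀ f₀ (k + 1) / 2 ^ g₀ f₀ k := by positivity
  rw [← le_div_iff₀' p1] at h1
  refine h1.trans (le_of_eq ?_)
  field_simp

/-- **The last component of the gradient along a path.** -/
theorem last_bd (D D' r : ℕ) (hDD : D ≤ D') : ∃ C : ℕ, 1 ≤ C ∧ ∀ {m J : ℕ} {F : Fam m J}
    {c : ℕ → Fin m} {Dr N M : ℕ} {C₀ a Eb ηm : ℝ} {o η σ : ℕ → ℝ} {lv b : ℕ → ℕ → ℝ} {κ : ℝ}
    {z : ℕ → ℕ → ℕ} {B : F.Ω → Prop} {g₀ : ℕ → ℕ → ℕ}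
    {G : ℕ → PtT F → ℕ → MvPolynomial (Option (Fin m)) ℝ}
    {H : ℕ → LnT F → ℕ → MvPolynomial (Option (Fin m)) ℝ}
    (_ : WinB F c r D Dr N M C₀ a Eb ηm o η σ lv b κ z B g₀ G H)
    {GN : PtT F → MvPolynomial (Option (Fin m)) ℝ} {κN : F.Ω → ℝ} {f jj : ℕ → ℕ}
    {k n Y : ℕ} {U : ℝ},
    k + 1 ≤ r → Set.InjOn c (Set.Iio (r + 1)) → 1 ≤ n → (∀ t ≤ n, f t ≤ N) →
    (∀ t < n, jj t ≤ M ∧ z (f t) (jj t) = ⌊o (f (t + 1)) * J⌋₊ - ⌊o (f t) * J⌋₊ ∧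
      o (f t) ≤ o (f (t + 1))) →
    C₀ * (ηm * J) ≤ Y → 3 ≤ Y → (n : ℝ) ≤ 2 ^ Y →
    (∀ t < n, ∀ l ≤ k + 1, (lv (f (t + 1)) l - lv (f t) l) * J ≤ Y ∧
      (lv (f t) l - lv (f (t + 1)) l) * J ≤ Y) →
    (∀ y, (GN y).totalDegree ≤ D') → (∀ y, DepC c (k + 1) (GN y)) →
    (∀ ω, B ω → ∀ x, NBx c (G (f 0) (ptr F J ω)) (g₀ (f 0)) ⌊o (f 0) * J⌋₊ (F.t ω) (k + 1) x →
      |eval x (GN (ptr F J ω)) + κN ω - eval x (G (f 0) (ptr F J ω) (k + 1))| ≤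
        2 ^ Y / 2 ^ g₀ (f 0) (k + 1)) →
    (∀ t < n, (lv (f t) k - lv (f t) (k + 1) - (lv (f 0) k - lv (f 0) (k + 1))) * J ≤ U + Y) →
    ∀ Q : PtT F → ℕ → MvPolynomial (Option (Fin m)) ℝ, (∀ y l, DepC c l (Q y l)) →
    (∀ y, Q y (k + 1) = GN y) →
    ∀ ω, B ω → |gnh F c (k + 1) (g₀ (f 0)) Q (G (f n)) ω k| ≤ 2 ^ (C * Y) * (2 : ℝ) ^ U := by
  obtain ⟨C, hC, hst⟩ := last_step D D' r
  refine ⟨C + 4, by omega, ?_⟩
  intro m J F c Dr N M C₀ a Eb ηm o η σ lv b κ z B g₀ G H W GN κN f jj k n Y U hkr hc hn hf hz hCη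
    hY hnY hlv hdN hpN hnN hU Q hQd hQe ω hω
  have hc' : Set.InjOn c (Set.Iio (k + 1)) := hc.mono fun y hy => by
    rw [Set.mem_Iio] at hy ⊢
    omega
  have hJ0 : (0 : ℝ) ≤ J := Nat.cast_nonneg J
  have hηY : ηm * J ≤ Y := by
    have h1 : 0 ≤ ηm := (W.hη (f 0) (hf 0 (Nat.zero_le _))).1.trans
      (W.hη (f 0) (hf 0 (Nat.zero_le _))).2
    have h2 : ηm * J ≤ C₀ * (ηm * J) := le_mul_of_one_le_left (mul_nonneg h1 hJ0) W.C1
    linarith
  -- the steps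
  obtain ⟨X, hX⟩ : ∃ X : ℕ → MvPolynomial (Option (Fin m)) ℝ, X = fun t =>
    if t = 0 then GN (ptr F J ω) else G (f t) (ptr F J ω) (k + 1) := ⟨_, rfl⟩
  have X0 : X 0 = GN (ptr F J ω) := by rw [hX]; rfl
  have X1 : ∀ t, X (t + 1) = G (f (t + 1)) (ptr F J ω) (k + 1) := fun t => by
    rw [hX]
    simp only [Nat.add_eq_zero_iff, one_ne_zero, and_false, if_false]
  obtain ⟨d, hd⟩ : ∃ d : MvPolynomial (Option (Fin m)) ℝ → ℝ, d = fun P =>
    eval (bt F ω) (pderiv (some (c k)) P) := ⟨_, rfl⟩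
  have hds : ∀ P P' : MvPolynomial (Option (Fin m)) ℝ, d (P - P') = d P - d P' := fun P P' => by
    rw [hd]
    simp only [map_sub]
  have hstep : ∀ t < n, |d (X (t + 1) - X t)| ≤ 2 ^ (C * Y) *
      (2 ^ g₀ (f t) k / 2 ^ g₀ (f t) (k + 1)) := by
    intro t ht
    obtain ⟨a1, a2, a3⟩ := hz t ht
    rw [X1, hd]
    rcases Nat.eq_zero_or_pos t with rfl | ht0
    · rw [X0]
      exact hst W (GN := GN) (κN := κN) hkr hc (hf 0 (by omega)) (hf _ (by omega)) a1 a2 a3 hCη hY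
        (hlv 0 ht) hdN hpN hnN ω hω
    · obtain ⟨t', rfl⟩ : ∃ t', t = t' + 1 := ⟨t - 1, by omega⟩
      rw [X1]
      exact hst W (GN := fun y => G (f (t' + 1)) y (k + 1)) (κN := fun _ => 0) hkr hc
        (hf _ (by omega)) (hf _ (by omega)) a1 a2 a3 hCη hY (hlv _ ht)
        (fun y => ((W.ev _ (hf (t' + 1) (by omega))).ball.degG y _).trans hDD)
        (fun y => (W.ev _ (hf (t' + 1) (by omega))).ball.depG y _) (fun ω' _ x _ => by
          rw [add_zero, sub_self, abs_zero]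
          positivity) ω hω
  have hsum : ∀ t ≤ n, d (X t - X 0) = ∑ s ∈ range t, d (X (s + 1) - X s) := by
    intro t
    induction t with
    | zero =>
      intro _
      rw [sub_self, hd]
      simp
    | succ t ih =>
      intro ht
      rw [Finset.sum_range_succ, ← ih (by omega), hds, hds, hds]
      ring
  have hXn : X n = G (f n) (ptr F J ω) (k + 1) := by
    obtain ⟨n', rfl⟩ : ∃ n', n = n' + 1 := ⟨n - 1, by omega⟩
    exact X1 n'
  have e1 : gnh F c (k + 1) (g₀ (f 0)) Q (G (f n)) ω k =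
      2 ^ g₀ (f 0) (k + 1) / 2 ^ g₀ (f 0) k * d (X n - X 0) := by
    rw [gnh_last hc' (g₀ (f 0)) hQd (fun y l => (W.ev _ (hf n le_rfl)).ball.depG y l), hQe, hXn,
      X0, hd]
  rw [e1, abs_mul, abs_of_pos (by positivity), hsum n le_rfl]
  have h1 : |∑ s ∈ range n, d (X (s + 1) - X s)| ≤ ∑ s ∈ range n, 2 ^ (C * Y) *
      (2 ^ g₀ (f s) k / 2 ^ g₀ (f s) (k + 1)) := (Finset.abs_sum_le_sum_abs _ _).trans
    (Finset.sum_le_sum fun s hs => hstep s (mem_range.1 hs))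
  refine (mul_le_mul_of_nonneg_left h1 (by positivity)).trans ?_
  rw [Finset.mul_sum]
  have h2 : ∀ s ∈ range n, (2 : ℝ) ^ g₀ (f 0) (k + 1) / 2 ^ g₀ (f 0) k * (2 ^ (C * Y) *
      (2 ^ g₀ (f s) k / 2 ^ g₀ (f s) (k + 1))) ≤ 2 ^ (C * Y) * (2 ^ (3 * Y) * 2 ^ U) := by
    intro s hs
    have hs' := mem_range.1 hs
    have e2 : (2 : ℝ) ^ g₀ (f 0) (k + 1) / 2 ^ g₀ (f 0) k * (2 ^ (C * Y) *
        (2 ^ g₀ (f s) k / 2 ^ g₀ (f s) (k + 1))) = 2 ^ (C * Y) *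
        2 ^ ((g₀ (f 0) (k + 1) : ℝ) - g₀ (f 0) k + (g₀ (f s) k - g₀ (f s) (k + 1))) := by
      rw [Real.rpow_add two_pos, Real.rpow_sub two_pos, Real.rpow_sub two_pos, Real.rpow_natCast,
        Real.rpow_natCast, Real.rpow_natCast, Real.rpow_natCast]
      ring
    rw [e2]
    refine mul_le_mul_of_nonneg_left ?_ (by positivity)
    have e3 : (2 : ℝ) ^ (3 * Y) * 2 ^ U = 2 ^ (((3 * Y : ℕ) : ℝ) + U) := by
      rw [Real.rpow_add two_pos, Real.rpow_natCast]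
    rw [e3]
    refine Real.rpow_le_rpow_of_exponent_le one_le_two ?_
    have s1 := (W.sds _ (hf 0 (by omega)) (k + 1) hkr).2
    have s2 := (W.sds _ (hf 0 (by omega)) k (by omega)).1
    have s3 := (W.sds _ (hf s hs'.le) k (by omega)).2
    have s4 := (W.sds _ (hf s hs'.le) (k + 1) hkr).1
    have s5 := mul_le_mul_of_nonneg_right (W.hσ _ (hf 0 (by omega))).2 hJ0
    have s6 := mul_le_mul_of_nonneg_right (W.hσ _ (hf s hs'.le)).2 hJ0
    have s7 := hU s hs'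
    have e4 : (lv (f 0) k - σ (f 0)) * (J : ℝ) = lv (f 0) k * J - σ (f 0) * J := by ring
    have e5 : (lv (f s) (k + 1) - σ (f s)) * (J : ℝ) = lv (f s) (k + 1) * J - σ (f s) * J := by
      ring
    have e6 : (lv (f s) k - lv (f s) (k + 1) - (lv (f 0) k - lv (f 0) (k + 1))) * (J : ℝ) =
      lv (f s) k * J - lv (f s) (k + 1) * J - (lv (f 0) k * J - lv (f 0) (k + 1) * J) := by ring
    rw [e4] at s2
    rw [e5] at s4
    rw [e6] at s7
    push_cast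
    linarith
  refine (Finset.sum_le_sum h2).trans ?_
  rw [Finset.sum_const, card_range, nsmul_eq_mul]
  have e7 : (2 : ℝ) ^ ((C + 4) * Y) = 2 ^ Y * (2 ^ (C * Y) * 2 ^ (3 * Y)) := by
    rw [← pow_add, ← pow_add]
    congr 1
    ring
  rw [e7]
  have p2 : (0 : ℝ) < 2 ^ U := Real.rpow_pos_of_pos two_pos U
  calc (n : ℝ) * (2 ^ (C * Y) * (2 ^ (3 * Y) * 2 ^ U)) ≤
      2 ^ Y * (2 ^ (C * Y) * (2 ^ (3 * Y) * 2 ^ U)) :=
        mul_le_mul_of_nonneg_right hnY (by positivity)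
    _ = _ := by ring

end Pool.VTL19
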