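import Pool.Agent.H19.VTL.Cle
import Pool.Agent.H19.TIE.Svc
import Pool.Agent.H92.V0F.Vsi
import Pool.Agent.H92.ALT.Jn4

/-!
# A thin target over a faster coordinate with small rate: the record

`vtl_void`: no record for the kinds one, ..., one, `k`, thin at a window with a family of labels of
small rate of the last coordinate, if the place before the last one is not slower than it.
-/

set_option autoImplicit false

namespace Pool.VTL19

open Finset Real MvPolynomial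
open Pool.Agent.H49.Ent Pool.Agent.H32.Dense Pool.STK Pool.KA Pool.KSAT Pool.K2S Pool.PB Pool.S6C
  Pool.GEN Pool.RCD Pool.LA91 Pool.OWN68 Pool.PKG Pool.ALT
open Pool.CHT Pool.CHX Pool.ISO Pool.D2R
open Pool.V0F (LbU ChUQ AttUQ recG_lbf chV chV_zero chV_mid chV_nb chV_mono chV_abs rec_low rec_balS
  chw_step v0_nmR radii_ok zzV)
open Pool.V0N (AlM alm_rec)
open Pool.V0B19 (nzD le_nzD grV V0Z V0E)
open Pool.NPZ (v0b_nzw NzW nzm_nzw)

/-- **No record** at a window with a family of labels of small rate. -/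
theorem vtl_void {r : ℕ} (hr : 1 ≤ r) {h β' : ℝ} {Sl : ℕ → ℝ} {κ : ℕ → Kg} {Dv : ℕ}
    (hκ : ∀ l < r, κ l = .one) (hκt : κ (r + 1) = .thin) (hs : 1 < Sl (r + 1))
    (hsr : Sl (r + 1) ≤ Sl r) (hβ : β' < Sl (r + 1) * Real.log 2) :
    VoidZ (r + 2) h Sl κ (sumQ (sumQ (ChUQ : PropG (r + 2) Unit) (AttUQ : PropG (r + 2) Unit))
      (FaQ : PropG (r + 2) (ℕ × ℕ × ℚ × ℚ))) (fun e : PosR => LowE (AdmL (r + 2)) β' Dv e) := by
  classical
  intro al hal K₀ hK₀ S₀ hS₀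
  obtain ⟨s, hsd⟩ : ∃ s : ℝ, s = Sl (r + 1) := ⟨_, rfl⟩
  rw [← hsd] at hs hsr hβ
  obtain ⟨hb, hb0, hb1, hβ⟩ := Pool.ASM.hb_of hs hβ
  have hs0 : 0 < s := by linarith
  have hr0 : (0 : ℝ) ≤ r := Nat.cast_nonneg r
  have hSr0 : 0 < Sl r := by linarith
  -- the theorems
  obtain ⟨D₀, hD₀, halm⟩ := alm_rec r S₀ hS₀
  obtain ⟨Kl, hKl, hlbf⟩ := recG_lbf (r + 2) S₀ (by omega) hS₀
  obtain ⟨D₂, hD₂, hwin⟩ := winb_con (r + 2) (r + 1) S₀ (by omega) hS₀
  obtain ⟨D, hDe⟩ : ∃ D : ℕ, D = max (max D₀ D₂) Dv := ⟨_, rfl⟩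
  have hDa : D₀ ≤ D := by rw [hDe]; exact (le_max_left _ _).trans (le_max_left _ _)
  have hDb : D₂ ≤ D := by rw [hDe]; exact (le_max_right _ _).trans (le_max_left _ _)
  have hDc : Dv ≤ D := by rw [hDe]; exact le_max_right _ _
  have hD : 1 ≤ D := hD₀.trans hDa
  obtain ⟨CB, hCB, hwin⟩ := hwin D hDb (nzD D) (le_nzD D)
  obtain ⟨C, hC, hend⟩ := vtl_clsEnd (r + 2) D (nzD D) r hD (le_nzD D)
  have hC1 : (1 : ℝ) ≤ C := by exact_mod_cast hC
  have hC0 : (0 : ℝ) < C := by linarith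
  obtain ⟨κ₂, hκ₂e⟩ : ∃ κ₂ : ℝ, κ₂ = (s - 1) / s / 2 * hb := ⟨_, rfl⟩
  have hs1 : 0 < (s - 1) / s := div_pos (by linarith) hs0
  have hs11 : (s - 1) / s ≤ 1 := by
    rw [div_le_one hs0]
    linarith
  have hκ₂ : 0 < κ₂ := by rw [hκ₂e]; positivity
  have hκ₂h : κ₂ < (s - 1) / s * hb := by
    have : 0 < (s - 1) / s * hb := mul_pos hs1 hb0
    rw [hκ₂e]
    linarith
  have hκ₂s : κ₂ ≤ (s - 1) / s / 2 := by
    rw [hκ₂e]
    exact mul_le_of_le_one_right (by positivity) hb1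
  have hκ₂1 : κ₂ ≤ 1 := by linarith
  obtain ⟨δ₀, Λ, hδ₀, hΛ, hV⟩ := v0b_nzw D r s hb κ₂ hD hr hs hb0 hb1 hκ₂ hκ₂h
  -- the constants
  obtain ⟨β, hβe⟩ : ∃ β : ℝ, β = min κ₂ (s - 1) / 32 := ⟨_, rfl⟩
  have hβ0 : 0 < β := by
    rw [hβe]
    have : 0 < min κ₂ (s - 1) := lt_min hκ₂ (by linarith)
    positivity
  have hβκ : 32 * β ≤ κ₂ := by
    rw [hβe]
    have := min_le_left κ₂ (s - 1)
    linarith
  have hβs : 32 * β ≤ s - 1 := by
    rw [hβe]
    have := min_le_right κ₂ (s - 1)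
    linarith
  obtain ⟨ζ, hζe⟩ : ∃ ζ : ℝ, ζ = β / (C * (s + 1)) := ⟨_, rfl⟩
  have hζ0 : 0 < ζ := by rw [hζe]; positivity
  have hζ : C * ζ * (s + 1) = β := by
    rw [hζe]
    field_simp
  have hζ1 : ζ ≤ 1 / 32 := by
    have h1 : C * ζ * (s + 1) ≤ 1 / 32 := by linarith
    have h2 : ζ ≤ C * ζ := le_mul_of_one_le_left hζ0.le hC1
    have h3 : C * ζ ≤ C * ζ * (s + 1) :=
      le_mul_of_one_le_right (by positivity) (by linarith)
    linarith
  obtain ⟨φ₀, hφ₀, hφ₀1, hφ₀2, hV⟩ := hV (ζ / 2) (by positivity)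
  refine ⟨1, 1, fun _ => 1, fun _ => ζ / 2, le_rfl, fun k _ => ⟨by linarith, by linarith, le_rfl⟩,
    fun S₂ hS₂ => ?_⟩
  obtain ⟨φ', hφe⟩ : ∃ φ' : ℝ, φ' = min (min φ₀ (ζ / C)) (min (ζ / 16) (1 / 400)) := ⟨_, rfl⟩
  have hφ0 : 0 < φ' := by
    rw [hφe]
    exact lt_min (lt_min hφ₀ (by positivity)) (lt_min (by positivity) (by norm_num))
  have hφ1 : φ' ≤ φ₀ := by rw [hφe]; exact (min_le_left _ _).trans (min_le_left _ _)
  have hφC : C * φ' ≤ ζ := by
    have h1 : φ' ≤ ζ / C := by rw [hφe]; exact (min_le_left _ _).trans (min_le_right _ _)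
    rw [le_div_iff₀ hC0] at h1
    linarith
  have hφ2 : φ' ≤ ζ / 16 := by
    rw [hφe]
    exact (min_le_right _ _).trans (min_le_left _ _)
  have hφ3 : φ' ≤ 1 / 400 := by
    rw [hφe]
    exact (min_le_right _ _).trans (min_le_right _ _)
  obtain ⟨Cf, hCf⟩ := exists_nat_ge (2 * Λ + 7 * r + 15)
  obtain ⟨cb, hcb⟩ : ∃ cb : ℕ, cb = Cf + 7 * r + 13 := ⟨_, rfl⟩
  obtain ⟨co, hco⟩ := exists_nat_ge (Λ + 1)
  obtain ⟨M₀, hM₀⟩ := exists_nat_ge (max (3 * (1 + Sl r + s) / φ') (2 * C * (Sl r + 1) / ζ))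
  have hcbR : (cb : ℝ) = Cf + 7 * r + 13 := by rw [hcb]; push_cast; ring
  have hM0 : (0 : ℝ) < M₀ := by
    have h1 : 0 < 3 * (1 + Sl r + s) / φ' := by positivity
    exact h1.trans_le ((le_max_left _ _).trans hM₀)
  have hM1 : 1 ≤ M₀ := by
    have h2 : 0 < M₀ := by exact_mod_cast hM0
    omega
  have hM1R : (1 : ℝ) ≤ M₀ := by exact_mod_cast hM1
  have hMφ : 3 * (1 + Sl r + s) ≤ M₀ * φ' := by
    have h1 := (le_max_left _ _).trans hM₀
    rwa [div_le_iff₀ hφ0] at h1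
  have hMζ : 2 * C * (Sl r + 1) ≤ M₀ * ζ := by
    have h1 := (le_max_right _ _).trans hM₀
    rwa [div_le_iff₀ hζ0] at h1
  obtain ⟨K', hK'⟩ : ∃ K' : ℝ, K' = cb + co + Λ + s + K₀ + 10 := ⟨_, rfl⟩
  obtain ⟨N', hN'⟩ : ∃ N' : ℕ, N' = (cb + co) * M₀ + 1 := ⟨_, rfl⟩
  have hcb0 : (0 : ℝ) ≤ cb := Nat.cast_nonneg _
  have hco0 : (0 : ℝ) ≤ co := Nat.cast_nonneg _
  have hcf0 : (0 : ℝ) ≤ Cf := Nat.cast_nonneg _
  have hcb3 : 3 ≤ cb := by omega
  have hco1 : 1 ≤ co := by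
    have h1 : (1 : ℝ) ≤ co := by linarith
    exact_mod_cast h1
  -- the family of labels
  obtain ⟨lam, hlam⟩ : ∃ lam : ℝ, lam = min 1 (2 * φ') := ⟨_, rfl⟩
  have hlam0 : 0 < lam := by rw [hlam]; exact lt_min one_pos (by positivity)
  have hlam1 : lam ≤ 1 := by rw [hlam]; exact min_le_left _ _
  have hlam2 : lam ≤ 2 * φ' := by rw [hlam]; exact min_le_right _ _
  obtain ⟨ℓ, h₁, ε₁, e₁, hℓ, hℓ₁, hh₁, hε₁, he₁, halm⟩ := halm D hDa (b := s) (h := hb)
    (δ := 1) (δ' := δ₀ / 2) (lam := lam) (g := s - 1) (R := 4) (K₁ := K₀) (ℓ₀ := 1)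
    (X := 1) (g₂ := 2) hs0 hb0 hb1 one_pos (by positivity) hlam0 (by linarith) (by norm_num)
    hK₀.le one_pos one_pos (by norm_num) (by linarith)
  obtain ⟨ε, hεe⟩ : ∃ ε : ℝ, ε = min (min ε₁ 1) (min (φ' / 4) (min (ζ / (4 * C)) (β / 16))) :=
    ⟨_, rfl⟩
  have hε0 : 0 < ε := by
    rw [hεe]
    exact lt_min (lt_min hε₁ one_pos) (lt_min (by positivity) (lt_min (by positivity)
      (by positivity)))
  have hεa : ε ≤ ε₁ := by rw [hεe]; exact (min_le_left _ _).trans (min_le_left _ _)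
  have hεb : ε ≤ 1 := by rw [hεe]; exact (min_le_left _ _).trans (min_le_right _ _)
  have hε1 : ε ≤ φ' / 4 := by rw [hεe]; exact (min_le_right _ _).trans (min_le_left _ _)
  have hε2 : ε ≤ ζ / (4 * C) := by
    rw [hεe]
    exact (min_le_right _ _).trans ((min_le_right _ _).trans (min_le_left _ _))
  have hε3 : ε ≤ β / 16 := by
    rw [hεe]
    exact (min_le_right _ _).trans ((min_le_right _ _).trans (min_le_right _ _))
  have hK1 : 1 ≤ K' := by rw [hK']; linarith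
  have hK'0 : K₀ ≤ K' := by rw [hK']; linarith
  have hK'p : 0 < K' := by linarith
  have hVb : ∀ k < N', |chV M₀ cb k| ≤ K' := fun k hk =>
    (chV_abs (M₀ := M₀) (cb := cb) (co := co) (k := k) hM1 (by omega)).trans (by
      rw [hK']
      linarith)
  refine ⟨⟨e₁, he₁⟩, K', N', chV M₀ cb, hK1, fun k hk => abs_le.1 (hVb k hk), ε, hε0, ?_⟩
  intro S g₀ P θ P₂ θ₂ Eb e₂ c Pt rt L T G g hG hgG hder hZ
  obtain ⟨i₀, ⟨a1, a2, a3, a4, a5, a6, a7⟩, hiD, φ, k₂, hφr0, hφr, hrt⟩ := hZ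
  by_cases hpos : 0 < L (r + 1) g g
  swap
  · obtain ⟨q₁, hq₁, H⟩ := rec_pos (by omega : r + 1 < r + 2) (hder (r + 1) (by omega)) hK₀ hK'0
      hpos
    exact ⟨fun _ => Sum.inl (Sum.inl ()), 0, fun _ => 0, fun _ => 1, fun j hj => by omega,
      fun k₀ _ => ⟨q₁, hq₁, fun q t x hq _ R => H hq R⟩⟩
  by_cases hposu : 0 < L r g g
  swap
  · obtain ⟨q₁, hq₁, H⟩ := rec_pos (by omega : r < r + 2) (hder r (by omega)) hK₀ hK'0 hposu
    exact ⟨fun _ => Sum.inl (Sum.inl ()), 0, fun _ => 0, fun _ => 1, fun j hj => by omega,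
      fun k₀ _ => ⟨q₁, hq₁, fun q t x hq _ R => H hq R⟩⟩
  have e1 : r + 2 - 1 = r + 1 := rfl
  have e2 : r + 2 - 2 = r := rfl
  rw [e1] at a1 a5 a6 a7
  rw [e2] at a2 a7
  obtain ⟨μ₁, d, hμ₁, hd, hmar⟩ := mar_lin (hder r (by omega)) (hder (r + 1) (by omega)) hpos
    hposu a5 a6 a7
  obtain ⟨κT, hκT0, hκT1⟩ : ∃ x : ℚ, (0 : ℝ) < x ∧ (x : ℝ) < φ₀ := exists_rat_btwn hφ₀
  obtain ⟨b₀, hb₀⟩ : ∃ b₀ : ℝ, b₀ = -(Cf + (7 * r + 12) / 2 - Λ) := ⟨_, rfl⟩
  obtain ⟨b₁, hb₁⟩ : ∃ b₁ : ℝ, b₁ = -(Cf / 2 + 7 * r + 13 : ℝ) := ⟨_, rfl⟩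
  have hbb : b₀ < b₁ := by
    rw [hb₀, hb₁]
    linarith
  refine ⟨fun j => if j = 0 then Sum.inl (Sum.inl ()) else if j = 1 then Sum.inl (Sum.inr ()) else
    Sum.inr (r, Cf, 1 / 8, κT), 3, fun j => if j < 2 then 0 else b₀,
    fun j => if j < 2 then 1 else b₁, fun j hj => ?_, fun k₀ hk₀ => ?_⟩
  · by_cases h5 : j < 2
    · simp only [h5, if_true]
      exact one_pos
    · simp only [h5, if_false]
      exact hbb
  have hch : ChUQ (n := r + 2) () (k₀ 0) S P θ c Pt rt L T κ G g := by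
    have h4 := hk₀ 0 (by norm_num)
    simp only [if_true] at h4
    exact h4
  have hat : AttUQ (n := r + 2) () (k₀ 1) S P θ c Pt rt L T κ G g := by
    have h4 := hk₀ 1 (by norm_num)
    simp only [one_ne_zero, if_false, if_true] at h4
    exact h4
  obtain ⟨μ, hμ⟩ : ∃ μ : ℝ, μ = min μ₁ ((1 / 2) ^ k₀ 1) := ⟨_, rfl⟩
  have hμ0 : 0 < μ := by rw [hμ]; exact lt_min hμ₁ (by positivity)
  have hμa : μ ≤ μ₁ := by rw [hμ]; exact min_le_left _ _
  have hμb : μ ≤ (1 / 2) ^ k₀ 1 := by rw [hμ]; exact min_le_right _ _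
  have hKK : 0 < K' + K₀ := by linarith
  have h3KK : 0 < 3 * K' + K₀ := by linarith
  have hK5 : 0 < K₀ + 4 + 1 := by linarith
  have h32 : 0 < 32 * s := by linarith
  refine ⟨min (min (d / (K' + K₀)) ((1 / 2) ^ k₂ / (K₀ + 4 + 1))) (min (μ / (32 * s))
    (min ((1 / 2) ^ k₀ 1 / (3 * K' + K₀)) ((1 / 2) ^ k₀ 2))), by positivity,
    fun q t x hq hx Rc => ?_⟩
  have q2 := hq.trans_le ((min_le_left _ _).trans (min_le_left _ _))
  have q3 := hq.trans_le ((min_le_left _ _).trans (min_le_right _ _))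
  have q4 := hq.trans_le ((min_le_right _ _).trans (min_le_left _ _))
  have q5 := hq.trans_le ((min_le_right _ _).trans ((min_le_right _ _).trans (min_le_left _ _)))
  have q6 := hq.trans_le ((min_le_right _ _).trans ((min_le_right _ _).trans (min_le_right _ _)))
  rw [lt_div_iff₀ hKK] at q2
  rw [lt_div_iff₀ h3KK] at q5
  rw [lt_div_iff₀ hK5] at q3
  rw [lt_div_iff₀ h32] at q4
  have hq0 := Rc.q0
  have hKq0 : 0 < K' * q := mul_pos hK'p hq0
  have hK₀q : 0 < K₀ * q := mul_pos hK₀ hq0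
  have hsq0 : 0 < s * q := mul_pos hs0 hq0
  have hnear := Rc.near
  have hwd : ∀ k < N', |t + chV M₀ cb k * q - g| ≤ (K' + K₀) * q := by
    intro k hk
    have h1 : |chV M₀ cb k * q| ≤ K' * q := by
      rw [abs_mul, abs_of_pos hq0]
      exact mul_le_mul_of_nonneg_right (hVb k hk) hq0.le
    calc |t + chV M₀ cb k * q - g| = |(t - g) + chV M₀ cb k * q| := by congr 1; ring
      _ ≤ |t - g| + |chV M₀ cb k * q| := abs_add_le _ _
      _ ≤ K₀ * q + K' * q := add_le_add hnear h1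
      _ = (K' + K₀) * q := by ring
  have hmw : ∀ k < N', μ ≤ L (r + 1) (t + chV M₀ cb k * q) (t + chV M₀ cb k * q) ∧
      μ ≤ L r (t + chV M₀ cb k * q) (t + chV M₀ cb k * q) ∧
      L r (t + chV M₀ cb k * q) (t + chV M₀ cb k * q) + μ ≤ 1 ∧
      i₀.2.1 + L (r + 1) (t + chV M₀ cb k * q) (t + chV M₀ cb k * q) + μ ≤ 1 ∧
      i₀.2.2.2 + μ ≤ L (r + 1) (t + chV M₀ cb k * q) (t + chV M₀ cb k * q) ∧
      L (r + 1) (t + chV M₀ cb k * q) (t + chV M₀ cb k * q) +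
        L r (t + chV M₀ cb k * q) (t + chV M₀ cb k * q) + μ ≤ 1 + i₀.2.2.2 := by
    intro k hk
    obtain ⟨b1, b2, b3, b4, b5, b6⟩ := hmar (t + chV M₀ cb k * q) ((hwd k hk).trans (by linarith))
    exact ⟨by linarith, by linarith, by linarith, by linarith, by linarith, by linarith⟩
  -- the labels of the chain
  have hatd : ∀ k < N', ∃ rk E : ℝ, 0 ≤ rk ∧ rk < 1 ∧ 0 ≤ E ∧
      E + L (r + 1) (t + chV M₀ cb k * q) (t + chV M₀ cb k * q) ≤ 1 - (1 / 2) ^ k₀ 1 ∧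
      LbU S ((range (r + 1)).image c) (c (r + 1)) (t + chV M₀ cb k * q)
        (L (r + 1) (t + chV M₀ cb k * q) (t + chV M₀ cb k * q)) rk E := fun k hk => by
    obtain ⟨rk, E, c1, c2, c3, c4, c5⟩ := hat _ (Rc.memG.2 k hk) ((hwd k hk).trans (by linarith))
    have h2 : (0 : ℝ) < (1 / 2) ^ k₀ 1 := by positivity
    exact ⟨rk, E, c1, by linarith, c3, c4, c5⟩
  have hVb' : ∀ k < N', |chV M₀ cb k| ≤ K' := hVb
  obtain ⟨Sb, hsb, Rb, hlabc⟩ := hlbf Rc hK'p hVb' (le_refl (3 * K' * q)) (fun k hk => by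
      obtain ⟨rd, -, h2⟩ := hch _ (Rc.memG.2 k hk)
      exact ⟨rd, h2⟩) (fun k hk => by
      obtain ⟨rk, E, h1, h2, h3, h4, h5⟩ := hatd k hk
      refine ⟨rk, E, h3, ?_, h5⟩
      show E + L (r + 2 - 1) _ _ + 3 * K' * q ≤ 1
      have h6 : E + L (r + 2 - 1) (t + chV M₀ cb k * q) (t + chV M₀ cb k * q) ≤
        1 - (1 / 2) ^ k₀ 1 := h4
      linarith)
  have hsbs : SubC Sb S := hsb
  -- the list of windows
  obtain ⟨nb, hnb⟩ : ∃ nb : ℕ, nb = cb * M₀ := ⟨_, rfl⟩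
  obtain ⟨ks, hks⟩ : ∃ ks : ℕ → ℕ, ks = fun k => if k = 0 then (cb - 3) * M₀ else nb + (k - 1) :=
    ⟨_, rfl⟩
  have k0 : ks 0 = (cb - 3) * M₀ := by rw [hks]; simp
  have k1 : ∀ j, ks (1 + j) = nb + j := fun j => by
    rw [hks]
    simp only [show ¬ 1 + j = 0 by omega, if_false]
    congr 1
    omega
  have hcb3M : (cb - 3) * M₀ ≤ cb * M₀ := Nat.mul_le_mul_right _ (by omega)
  have hcoM : M₀ ≤ co * M₀ := Nat.le_mul_of_pos_left _ (by omega)
  have hNN : nb + M₀ < N' := by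
    rw [hN', hnb, add_mul]
    omega
  have hksN : ∀ i < M₀ + 2, ks i < N' := by
    intro i hi
    rcases Nat.eq_zero_or_pos i with rfl | h3
    · rw [k0]
      omega
    · obtain ⟨j, rfl⟩ : ∃ j, i = 1 + j := ⟨i - 1, by omega⟩
      rw [k1]
      omega
  have hchb : ∀ j, chV M₀ cb (nb + j) = (j : ℝ) / M₀ := fun j => by rw [hnb]; exact chV_nb hM1 j
  have hchc : chV M₀ cb ((cb - 3) * M₀) = -3 := by
    unfold Pool.V0F.chV
    have e3 : (((cb - 3) * M₀ : ℕ) : ℝ) = (cb - 3) * M₀ := by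
      rw [Nat.cast_mul, Nat.cast_sub hcb3]
      norm_num
    rw [e3]
    field_simp
    ring
  have kv0 : chV M₀ cb (ks 0) = -3 := by rw [k0, hchc]
  have kv1 : ∀ j, chV M₀ cb (ks (1 + j)) = (j : ℝ) / M₀ := fun j => by rw [k1, hchb]
  have kb : ∀ i < M₀ + 2, -3 ≤ chV M₀ cb (ks i) ∧ chV M₀ cb (ks i) ≤ 1 := by
    intro i hi
    rcases Nat.eq_zero_or_pos i with rfl | h3
    · rw [kv0]
      norm_num
    · obtain ⟨j, rfl⟩ : ∃ j, i = 1 + j := ⟨i - 1, by omega⟩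
      rw [kv1]
      have h4 : 0 ≤ (j : ℝ) / M₀ := by positivity
      have h5 : (j : ℝ) / M₀ ≤ 1 := by
        rw [div_le_one hM0]
        exact_mod_cast (by omega : j ≤ M₀)
      constructor <;> linarith
  have hat' : ∀ k ≥ k₂, AltAt Sb ((range (r + 1)).image c) ((range r).image c) (c (r + 1))
      i₀.1.2.2 i₀.2.1 i₀.2.2.1 i₀.2.2.2 (fun w => L (r + 1) w w) g φ e₁ k := by
    intro k hk
    have h4 := hrt k hk
    rw [a1, a2] at h4
    exact h4.sub hsbs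
  obtain ⟨S', hne', hsS, R', hAlW, Ψ, wΨ, p₁, p₂, eN, uN, pN, HM, -⟩ := halm Rb hsd.symm
    (by rw [hK']; linarith) hεa hVb (fun k hk => by
      obtain ⟨rd, -, h2⟩ := hch _ (Rc.memG.2 k hk)
      exact ⟨rd, h2.sub hsbs⟩) (μ := μ) (fun k hk => by
      obtain ⟨rk, E, c1, c2, c3, c4, c5⟩ := hatd k hk
      exact ⟨E, rk, c3, by linarith, (hmw k hk).2.2.1, c5.sub hsbs⟩)
    (x := g) (e₀ := i₀.2.1) (ρ₀ := i₀.2.2.1)
    (π₀ := i₀.2.2.2) (φ := φ) (e := e₁) (Kf := i₀.1.2.2) (k₁ := k₂) hnear (hiD.trans hDc)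
    he₁ le_rfl hφr0 (hφr.trans hβ) hat' (by linarith) (by exact_mod_cast a4) (by exact_mod_cast a3)
    hμ0 (by linarith) (n := M₀ + 2) (ks := ks) (by omega) hksN (fun i hi => by
      obtain ⟨h4, h5⟩ := kb i hi
      exact abs_le.2 ⟨by linarith, by linarith⟩) (fun i hi => by
      rw [kv0]
      exact (kb i hi).1) (fun i hi => by
      obtain ⟨b1, b2, b3, b4, b5, b6⟩ := hmw (ks i) (hksN i hi)
      exact ⟨b1, b4, by linarith, by linarith⟩)
  have hsub : SubC S' S := fun τ J F A h => hsb τ J F A (hsS τ J F A h)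
  have hS1 : ∀ l < r, Sl l = 1 := fun l hl => by
    have h1 := R'.kd l (by omega)
    rw [hκ l hl] at h1
    exact h1
  have hεq : 0 < ε * q := mul_pos hε0 hq0
  -- the windows of the charts
  obtain ⟨ow, how⟩ : ∃ ow : ℕ → ℝ, ow = fun k => t + chV M₀ cb k * q := ⟨_, rfl⟩
  have hok : ∀ k, ow k = t + chV M₀ cb k * q := fun k => by rw [how]
  have how0 : ow 0 = t - cb * q := by rw [hok, chV_zero]; ring
  have hownb : ow nb = t := by rw [hok, hnb, chV_mid hM1]; ring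
  have hownn : ow (nb + M₀) = t + q := by
    rw [hok, hchb, div_self hM0.ne']
    ring
  have howlv : ∀ k, ∀ l ≤ r + 1, lvN P c (r + 1) Pt l (ow k) (ow k) = L l (ow k) (ow k) := by
    intro k l hl
    rw [R'.lv l (by omega)]
    rfl
  have W := R'.tg (r + 1) (by omega) (by omega)
  have hEb := W.Eb0
  have hKq : cb * q + co * q + Λ * q + s * q + K₀ * q + 10 * q = K' * q := by rw [hK']; ring
  have hcbq : 0 ≤ cb * q := by positivity
  have hcoq : 0 ≤ co * q := by positivity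
  have hΛq : q ≤ Λ * q := le_mul_of_one_le_left hq0.le hΛ
  have hΛco : Λ * q + q ≤ co * q := by
    have := mul_le_mul_of_nonneg_right hco hq0.le
    linarith
  have ht0 := R'.t0
  have ht1 := R'.t1
  have hroomx : ∀ y : ℝ, t - cb * q ≤ y → y ≤ t + co * q → ∀ l ≤ r + 1,
      L l y y + Eb (r + 1) + 3 * K' * q < 1 := fun y h1 h2 l hl => W.room l hl y (by
    rw [abs_le]
    constructor <;> linarith)
  have hlowx : ∀ y : ℝ, t - cb * q ≤ y → y ≤ t + co * q → ∀ l ≤ r + 1, y ≤ L l y y :=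
    fun y h1 h2 l hl => rec_low (r := r + 1) R' hl (by linarith) (by linarith)
  have hε1q : ε * q ≤ φ' / 4 * q := mul_le_mul_of_nonneg_right hε1 hq0.le
  have hφq : φ' * q ≤ φ₀ * q := mul_le_mul_of_nonneg_right hφ1 hq0.le
  have hφ3q : φ' * q ≤ ζ / 16 * q := mul_le_mul_of_nonneg_right hφ2 hq0.le
  have hφ0q : 0 < φ' * q := by positivity
  have hVa : ∀ {k : ℕ}, k < N' → |ow k - t| ≤ K' * q := fun {k} hk => by
    rw [hok, add_sub_cancel_left, abs_mul, abs_of_pos hq0]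
    exact mul_le_mul_of_nonneg_right (hVb k hk) hq0.le
  have hstep : ∀ k, ow (k + 1) = ow k + q / M₀ := fun k => by
    rw [hok, hok, Pool.V0F.chV_succ]
    ring
  have hqM : 0 < q / M₀ := by positivity
  -- the winding of balls
  obtain ⟨ηm, hηm⟩ : ∃ ηm : ℝ, ηm = min (ζ / (C * CB)) (φ' / (4 * CB)) * q := ⟨_, rfl⟩
  have hCB0 : 0 < CB := by linarith
  have hηm0 : 0 < ηm := by
    rw [hηm]
    exact mul_pos (lt_min (by positivity) (by positivity)) hq0
  have hηm1 : C * (CB * ηm) ≤ ζ * q := by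
    have h1 : ηm ≤ ζ / (C * CB) * q := by
      rw [hηm]
      exact mul_le_mul_of_nonneg_right (min_le_left _ _) hq0.le
    calc C * (CB * ηm) ≤ C * (CB * (ζ / (C * CB) * q)) :=
          mul_le_mul_of_nonneg_left (mul_le_mul_of_nonneg_left h1 hCB0.le) hC0.le
      _ = ζ * q := by field_simp
  have hηm2 : 4 * (CB * ηm) ≤ φ' * q := by
    have h1 : ηm ≤ φ' / (4 * CB) * q := by
      rw [hηm]
      exact mul_le_mul_of_nonneg_right (min_le_right _ _) hq0.le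
    calc 4 * (CB * ηm) ≤ 4 * (CB * (φ' / (4 * CB) * q)) :=
          mul_le_mul_of_nonneg_left (mul_le_mul_of_nonneg_left h1 hCB0.le) (by norm_num)
      _ = φ' * q := by field_simp
  have hr₀ : 0 < min (q / (2 * M₀)) (ζ / 2 * q / 2) := lt_min (by positivity) (by positivity)
  obtain ⟨K₁, bb, hK₁, hwin⟩ := hwin (S := S') (P := P) (θ := θ) (c := c) (Pt := Pt)
    (a := t + 3 * q) (Eb := Eb (r + 1)) (ηm := ηm) (o := ow) (η := fun _ => ηm) (σ := fun _ => ηm)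
    (r₀ := fun _ => min (q / (2 * M₀)) (ζ / 2 * q / 2)) (nb + M₀) 2 R'.thr R'.th0 R'.tmh R'.inj
    R'.law hEb.le (fun k' hk' => by
      rw [hok]
      have h1 := abs_le.1 (chV_abs (M₀ := M₀) (cb := cb) (co := co) (k := k') hM1 (by omega))
      have h2 : chV M₀ cb k' ≤ 1 := by
        have h3 := chV_mono (M₀ := M₀) (cb := cb) hk'
        rwa [hchb, div_self hM0.ne'] at h3
      exact rec_balS (r := r + 1) R' (by omega) (by omega) (by linarith) (by
        rw [hK']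
        linarith [h1.1]) (hVb k' (by omega)))
    (fun k' _ => ⟨hηm0, hηm0, le_rfl, hr₀, le_rfl⟩)
  -- the class theorem
  have hlbk : ∀ k < N', ∃ (Kc : ℕ) (E rd : ℕ → ℝ),
      (∀ l < r, 0 ≤ E l ∧ L l (ow k) (ow k) + E l + Λ * q ≤ 1 ∧
        0 ≤ rd l ∧ rd l + Λ * q ≤ 1) ∧
      ∀ e : ℝ, 0 < e → Bas S' (fun J F A => ∃ (V : Type) (z : PtT F → V) (z' : LnT F → V)
        (g : V → ℕ → MvPolynomial (Option (Fin (r + 2))) ℝ),
        Pool.V0F.LbE F c r Kc E e (ow k) rd (fun l => L l (ow k) (ow k)) A z z' g) := by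
    intro k hk
    obtain ⟨E, rd, h1, h2⟩ := hlabc k hk
    rw [hok]
    have h3 : Λ * q ≤ 3 * K' * q := by linarith
    refine ⟨Kl, E, rd, fun l hl => ?_, fun e he => ?_⟩
    · obtain ⟨a1, a2, a3, a4⟩ := h1 l (by omega)
      exact ⟨a1, by linarith, a3, by linarith⟩
    · refine Bas.mono 0 ((h2 e he).sub hsS) ?_
      rintro J - F A ⟨V, z, z', g, hg⟩
      exact ⟨V, z, z', g, fun i hi => hg i (by omega)⟩
  have hgv : ∀ j, grV M₀ cb t q j = ow j := fun j => (hok j).symm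
  have hk30 : ow (ks 0) = t - 3 * q := by
    rw [hok, kv0]
    ring
  have hks1 : ks 1 = nb := by
    have := k1 0
    rwa [Nat.add_zero, Nat.add_zero] at this
  have hs30 : ow ((cb - 3) * M₀) = t - 3 * q := by rw [← k0, hk30]
  have hN0 : (cb - 3) * M₀ < N' := by
    have := hksN 0 (by omega)
    rwa [k0] at this
  obtain ⟨x1, x2, x3, x4⟩ := hx 2 (by norm_num)
  simp only [show ¬ (2 : ℕ) < 2 by omega, show ¬ (2 : ℕ) = 0 by omega,
    show ¬ (2 : ℕ) = 1 by omega, if_false] at x2 x3 x4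
  have hFa : FaQ (r, Cf, 1 / 8, κT) (k₀ 2) S' P θ c Pt rt L T κ G (x 2) := FaQ.sub hsub x4
  have hbas := hV R' hε0 hS1 hκ hsd.symm hsr (M₀ := M₀) (cb := cb) (co := co) (Cf := Cf) (w := t)
    (u := q) (φ := φ' * q) hM1 hq0 hφq (fun j hj => R'.memG.2 j (by omega)) (by
      rw [sub_self, abs_zero]
      have h1 : (cb + co + Λ + 1) * q = cb * q + co * q + Λ * q + q := by ring
      rw [h1]
      linarith) (by linarith) (by
      have h1 : 3 * ((1 + Sl r + Sl (r + 1)) * (q / M₀)) = 3 * (1 + Sl r + s) * q / M₀ := by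
        rw [← hsd]
        ring
      rw [h1, div_le_iff₀ hM0]
      have := mul_le_mul_of_nonneg_right hMφ hq0.le
      linarith) hCf hcb hco (κ' := κT) (k₀ := k₀ 2) (x₀ := x 2) hκT0 hκT1.le hFa (by linarith)
    (by
      have h1 : b₀ * q = -((Cf + (7 * r + 12) / 2 - Λ) * q) := by rw [hb₀]; ring
      linarith)
    (by
      have h1 : b₁ * q = -((Cf / 2 + 7 * r + 13) * q) := by rw [hb₁]; ring
      linarith)
    (fun j hj => by
      obtain ⟨rk, E, c1, c2, c3, c4, c5⟩ := hatd j (by omega)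
      have h2 : (0 : ℝ) < (1 / 2) ^ k₀ 1 := by positivity
      exact ⟨rk, E, c1, c2, c3, by
        show E + L (r + 1) (t + chV M₀ cb j * q) (t + chV M₀ cb j * q) < 1
        linarith, c5.sub hsub⟩)
    (fun x' hx' => by
      rcases hx' with rfl | rfl
      · have h1 := hlbk nb (by omega)
        rwa [hownb] at h1
      · have h1 := hlbk ((cb - 3) * M₀) hN0
        rwa [hs30] at h1)
    (i := 1) (i' := 0) (im := fun t' => 1 + t') HM (by omega)
    (by
      show t + chV M₀ cb (ks 1) * q = t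
      rw [hks1, ← hok, hownb]) (by omega)
    (by
      show t + chV M₀ cb (ks 0) * q = t - 3 * q
      rw [kv0]
      ring)
    (fun t' ht' => ⟨by omega, by
      show t + chV M₀ cb (ks (1 + t')) * q = grV M₀ cb t q (cb * M₀ + t')
      rw [k1, hnb]
      rfl⟩)
    (div_nonneg hφr0 hs0.le) (by
      rw [div_le_iff₀ hs0]
      linarith)
    (by
      have := mul_le_mul_of_nonneg_right hlam2 hq0.le
      linarith)
    (le_of_eq (by ring)) (by linarith)
    (mul_le_of_le_one_left hq0.le hlam1)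
    (mul_le_mul_of_nonneg_right (by linarith) hq0.le)
    (by
      rw [sub_self, mul_zero]
      have h1 : ε * q ≤ 1 * q := mul_le_mul_of_nonneg_right hεb hq0.le
      have h2 : s * (4 * q) = 4 * (s * q) := by ring
      have h3 : (s - 1) * q = s * q - q := by ring
      have h4 : 1 * q ≤ s * q := mul_le_mul_of_nonneg_right hs.le hq0.le
      rw [h2, h3]
      linarith)
    (by
      rw [sub_self, abs_zero]
      linarith)
    (Dr := nzD D) (Nw := nb + M₀) (M := 2) (C₀ := CB) (a := t + 3 * q) (Ew := Eb (r + 1))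
    (ηm := ηm) (ow := ow) (η := fun _ => ηm) (σ := fun _ => ηm)
    (lv := fun k l => lvN P c (r + 1) Pt l (ow k) (ow k)) (ix := fun j => j) le_rfl
    (fun j hj => ⟨by omega, hok j⟩) (fun i _ l hl => howlv i l hl) hηm2 le_rfl
  -- the last windows
  obtain ⟨d', hd', hrat⟩ := W.rat 0 one_pos (β / 8 * q) (by positivity)
  simp only [one_mul] at hrat
  obtain ⟨a, ha1, ha2⟩ : ∃ a : ℚ, t + q < a ∧ (a : ℝ) < t + q + min d' (β * q) :=
    exists_rat_btwn (by
      have : 0 < min d' (β * q) := lt_min hd' (by positivity)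
      linarith)
  obtain ⟨w, hw1, hw2⟩ : ∃ w : ℚ, t + ζ / 2 * q < w ∧
      (w : ℝ) < t + ζ / 2 * q + min d' (ζ * q / 4) := exists_rat_btwn (by
      have : 0 < min d' (ζ * q / 4) := lt_min hd' (by positivity)
      linarith)
  have ha3 := min_le_left d' (β * q)
  have ha4 := min_le_right d' (β * q)
  have hw3 := min_le_left d' (ζ * q / 4)
  have hw4 := min_le_right d' (ζ * q / 4)
  have hζq : ζ * q ≤ 1 / 32 * q := mul_le_mul_of_nonneg_right hζ1 hq0.le
  have hζq0 : 0 < ζ * q := by positivity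
  have hβq0 : 0 < β * q := by positivity
  have hζ2 : ζ / 2 * q = ζ * q / 2 := by ring
  have hwa : (w : ℝ) ≤ a := by linarith
  obtain ⟨hbr, -, -⟩ := hrat a w ha1.le (by linarith) hw1.le (by linarith) hwa
  have hkd := R'.kd (r + 1) (by omega)
  rw [hκt, ← hsd] at hkd
  obtain ⟨-, hthin⟩ := hkd
  have hth := hthin (t + q) (t + ζ / 2 * q) (by linarith) (by linarith) (by linarith)
  have hdT := abs_le.1 (R'.dT (r + 1) (by omega) (t + ζ / 2 * q) (by
    rw [add_sub_cancel_left, abs_of_pos (by positivity)]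
    linarith))
  have hdL1 := abs_le.1 (R'.dL (r + 1) (by omega) (t + q) (by
    rw [add_sub_cancel_left, abs_of_pos hq0]
    linarith))
  rw [← hsd] at hdT hdL1
  have hrt := hroomx t (by linarith) (by linarith)
  have hEbe := W.Ebe
  have hnum := v0_nmR (C := C) (q := q) (t := t) (β := β) (ζ := ζ) (s := s) (κ₂ := κ₂)
    (ε := ε) (L0 := L (r + 1) t t) (LN := L (r + 1) (t + q) (t + q))
    (bt := bet (P₂ (r + 1)) c (r + 1) a w) (Eb := Eb (r + 1))
    (e := e₂ (r + 1)) (a := a) (w := w) hq0 hC1 hβ0 hβκ hβs hκ₂1 hζ0 hζ hε0.le (by linarith) (by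
      have h1 : (s - 1) * (ζ / 2 * q) = s * (t + ζ / 2 * q - t) - ζ / 2 * q := by ring
      rw [h1]
      linarith [hdT.2]) (by
      have h1 : s * (t + q - t) = s * q := by ring
      rw [h1] at hdL1
      linarith [hdL1.1]) ha1.le (by linarith) hw1.le (by linarith) (by
      have := hrt (r + 1) le_rfl
      linarith) hEb (by linarith)
  obtain ⟨n1, n2, n3, n4, n5, n6, n7, n8, n9, n10, n11, n12⟩ := hnum
  have hCζ : C * (ζ * q) ≤ q := by
    have h1 : C * ζ ≤ 1 := by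
      have h2 : C * ζ ≤ C * ζ * (s + 1) :=
        le_mul_of_one_le_right (by positivity) (by linarith)
      linarith
    have h2 := mul_le_mul_of_nonneg_right h1 hq0.le
    linarith
  have hlvt : ∀ l ≤ r + 1, lvN P c (r + 1) Pt l (ow nb) (ow nb) = L l t t := fun l hl => by
    rw [howlv nb l hl, hownb]
  have hlvn : ∀ l ≤ r + 1, lvN P c (r + 1) Pt l (ow (nb + M₀)) (ow (nb + M₀)) =
      L l (t + q) (t + q) := fun l hl => by rw [howlv _ l hl, hownn]
  obtain ⟨J₁, hJ₁⟩ := radii_ok (M₀ := M₀) (cb := cb) (t := t) (q := q) (a := a)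
    (q₁ := ζ / 2 * q) (φ := φ' * q) (ζ := ζ * q) hM1 hq0 (by linarith) ha1.le n3 (by positivity)
    (by linarith) (by linarith) hζq0.le
  simp only [← hok, ← hnb] at hJ₁
  have hCε : C * (4 * (ε * q)) ≤ ζ * q := by
    calc C * (4 * (ε * q)) ≤ C * (4 * (ζ / (4 * C) * q)) :=
          mul_le_mul_of_nonneg_left (mul_le_mul_of_nonneg_left
            (mul_le_mul_of_nonneg_right hε2 hq0.le) (by norm_num)) hC0.le
      _ = ζ * q := by field_simp
  have hCM : C * ((Sl r + 1) * (q / M₀)) ≤ ζ * q / 2 := by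
    have h1 : C * ((Sl r + 1) * (q / M₀)) = C * (Sl r + 1) * q / M₀ := by ring
    rw [h1, div_le_iff₀ hM0]
    have := mul_le_mul_of_nonneg_right hMζ hq0.le
    linarith
  have hmw' : ∀ k < nb + M₀, ow k ≤ ow (k + 1) := fun k _ => by
    rw [hstep]
    linarith
  refine hend (S := S') (P := P₂ (r + 1)) (θ := θ₂ (r + 1)) (c := c) (C₀ := CB) (a' := t + 3 * q)
    (Eb := Eb (r + 1)) (ηm := ηm) (ζ := ζ * q) (o := ow) (η := fun _ => ηm) (σ := fun _ => ηm)
    (r₀ := fun _ => min (q / (2 * M₀)) (ζ / 2 * q / 2))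
    (lv := fun k l => lvN P c (r + 1) Pt l (ow k) (ow k)) (bb := bb) (Dr := nzD D) (N := nb + M₀)
    (nb := nb) (n := M₀) (a := a) (w := w) (q₁ := ζ / 2 * q) (h := β * q)
    (h₂ := 2 * (β * q)) (e := e₂ (r + 1)) (φ := φ' * q) (ι := ζ / 2) (K₁ := K₁) (K₂ := 8)
    (s := s) (κ₂ := κ₂) (u := q) (tie := (Sl r = s))
    (fun J => zzV M₀ cb t q a (ζ / 2 * q) J) R'.ne R'.pos W.thr₂ R'.tmh R'.inj (le_nzD D)
    le_rfl hM1 hmw' hζq0 hηm1 ?_ (fun k' hk' l hl => ?_) (fun t' ht' l hl => ?_)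
    (fun t' ht' => ?_) (fun k' hk' => ?_) ?_ ?_ ?_ (by exact_mod_cast hwa) ?_ ?_ ?_ hβq0
    (by positivity) (by positivity) n4 n5 ?_ ?_ ?_ n9
    (fun l hl => ?_) (fun l hl => ?_) (fun j _ => Or.inr ?_) ?_ (by positivity) (by linarith)
    hq0 hκ₂ hκ₂s hK₁ (by norm_num) ⟨J₁, fun J hJ => ?_⟩ hwin ?_
  · have h1 := mul_le_mul_of_nonneg_right hφC hq0.le
    linarith
  · show (C : ℝ) * |lvN P c (r + 1) Pt l (ow k') (ow k') - ow k' -
      (lvN P c (r + 1) Pt l (ow nb) (ow nb) - ow nb)| ≤ ζ * q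
    rw [hlvt l (by omega), howlv k' l (by omega), hownb]
    have h1 := R'.dL l (by omega) (ow k') (hVa (by omega))
    rw [hS1 l hl, one_mul] at h1
    have h2 : L l (ow k') (ow k') - ow k' - (L l t t - t) =
      L l (ow k') (ow k') - L l t t - (ow k' - t) := by ring
    rw [h2]
    have h3 : C * (ε * q) ≤ ζ * q := by
      have : 0 < C * (ε * q) := by positivity
      linarith
    exact (mul_le_mul_of_nonneg_left h1 hC0.le).trans h3
  · show (C : ℝ) * |lvN P c (r + 1) Pt l (ow (nb + (t' + 1))) (ow (nb + (t' + 1))) -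
      lvN P c (r + 1) Pt l (ow (nb + t')) (ow (nb + t'))| ≤ ζ * q
    rw [howlv _ l hl, howlv _ l hl]
    have h1 := abs_le.1 (R'.dL l (by omega) (ow (nb + (t' + 1))) (hVa (by omega)))
    have h2 := abs_le.1 (R'.dL l (by omega) (ow (nb + t')) (hVa (by omega)))
    have h3 : ow (nb + (t' + 1)) = ow (nb + t') + q / M₀ := hstep (nb + t')
    have h4 : 0 < Sl l ∧ Sl l ≤ Sl r + 1 := by
      rcases (show l < r ∨ l = r ∨ l = r + 1 by omega) with h5 | rfl | rfl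
      · rw [hS1 l h5]
        constructor <;> linarith
      · constructor <;> linarith
      · rw [← hsd]
        constructor <;> linarith
    obtain ⟨y, hy⟩ : ∃ y : ℝ, y = ow (nb + t') := ⟨_, rfl⟩
    rw [← hy] at h2 h3 ⊢
    rw [h3] at h1 ⊢
    have h5 : Sl l * (y + q / M₀ - t) = Sl l * (y - t) + Sl l * (q / M₀) := by ring
    rw [h5] at h1
    have h6 : 0 < Sl l * (q / M₀) := mul_pos h4.1 hqM
    have h7 : Sl l * (q / M₀) ≤ (Sl r + 1) * (q / M₀) :=
      mul_le_mul_of_nonneg_right h4.2 hqM.le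
    have h8 : |L l (y + q / M₀) (y + q / M₀) - L l y y| ≤ (Sl r + 1) * (q / M₀) + 2 * (ε * q) := by
      rw [abs_le]
      constructor <;> linarith [h1.1, h1.2, h2.1, h2.2]
    have h9 := mul_le_mul_of_nonneg_left h8 hC0.le
    have h10 : C * ((Sl r + 1) * (q / M₀) + 2 * (ε * q)) =
      C * ((Sl r + 1) * (q / M₀)) + C * (4 * (ε * q)) / 2 := by ring
    rw [h10] at h9
    linarith
  · show (C : ℝ) * (lvN P c (r + 1) Pt r (ow (nb + t')) (ow (nb + t')) -
      lvN P c (r + 1) Pt (r + 1) (ow (nb + t')) (ow (nb + t')) -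
      (lvN P c (r + 1) Pt r (ow (nb + M₀)) (ow (nb + M₀)) -
        lvN P c (r + 1) Pt (r + 1) (ow (nb + M₀)) (ow (nb + M₀)))) ≤ ζ * q
    rw [hlvn r (by omega), hlvn (r + 1) le_rfl, howlv _ r (by omega), howlv _ (r + 1) le_rfl]
    have h1 := abs_le.1 (R'.dL r (by omega) (ow (nb + t')) (hVa (by omega)))
    have h2 := abs_le.1 (R'.dL (r + 1) (by omega) (ow (nb + t')) (hVa (by omega)))
    have h3 := abs_le.1 (R'.dL r (by omega) (t + q) (by
      rw [add_sub_cancel_left, abs_of_pos hq0]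
      linarith))
    have h4 : ow (nb + t') ≤ t + q := by
      rw [← hownn, hok, hok]
      have := mul_le_mul_of_nonneg_right (chV_mono (M₀ := M₀) (cb := cb)
        (show nb + t' ≤ nb + M₀ by omega)) hq0.le
      linarith
    rw [← hsd] at h2
    have h5 : Sl r * (ow (nb + t') - t) - s * (ow (nb + t') - t) -
        (Sl r * (t + q - t) - s * (t + q - t)) ≤ 0 := by
      have h6 : Sl r * (ow (nb + t') - t) - s * (ow (nb + t') - t) -
        (Sl r * (t + q - t) - s * (t + q - t)) = -((Sl r - s) * (t + q - ow (nb + t'))) := by ring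
      rw [h6]
      have := mul_nonneg (show 0 ≤ Sl r - s by linarith) (show 0 ≤ t + q - ow (nb + t') by linarith)
      linarith
    have h7 : L r (ow (nb + t')) (ow (nb + t')) - L (r + 1) (ow (nb + t')) (ow (nb + t')) -
        (L r (t + q) (t + q) - L (r + 1) (t + q) (t + q)) ≤ 4 * (ε * q) := by
      linarith [h1.2, h2.1, h3.1, hdL1.2]
    exact (mul_le_mul_of_nonneg_left h7 hC0.le).trans hCε
  · rcases hk' with rfl | rfl
    · refine ⟨by rw [hownb]; linarith, fun l hl => ?_⟩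
      show C * (ζ * q) ≤ lvN P c (r + 1) Pt l (ow k') (ow k') ∧
        Eb (r + 1) + lvN P c (r + 1) Pt l (ow k') (ow k') + C * (ζ * q) ≤ 1
      rw [hlvt l hl]
      have h1 := hlowx t (by linarith) (by linarith) l hl
      have h2 := hrt l hl
      constructor <;> linarith
    · refine ⟨by rw [hownn]; linarith, fun l hl => ?_⟩
      show C * (ζ * q) ≤ lvN P c (r + 1) Pt l (ow (nb + M₀)) (ow (nb + M₀)) ∧
        Eb (r + 1) + lvN P c (r + 1) Pt l (ow (nb + M₀)) (ow (nb + M₀)) + C * (ζ * q) ≤ 1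
      rw [hlvn l hl]
      have h1 := hlowx (t + q) (by linarith) (by linarith) l hl
      have h2 := hroomx (t + q) (by linarith) (by linarith) l hl
      constructor <;> linarith
  · rw [hownb]; linarith
  · rw [hownb]; exact n1
  · have h1 : (0 : ℝ) ≤ w := by linarith
    exact_mod_cast h1
  · have h1 : (a : ℝ) ≤ 1 := by linarith
    exact_mod_cast h1
  · have h1 : (w : ℝ) < 1 := by linarith
    exact_mod_cast h1
  · exact W.eθ w (by
      rw [abs_le]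
      constructor <;> linarith)
  · show bet (P₂ (r + 1)) c (r + 1) a w + β * q + C * (ζ * q) + 2 * (2 * (β * q)) ≤
      lvN P c (r + 1) Pt (r + 1) (ow nb) (ow nb) + κ₂ * q + (a - w)
    rw [hlvt (r + 1) le_rfl]
    exact n6
  · show bet (P₂ (r + 1)) c (r + 1) a w + β * q + C * (ζ * q) + 2 * (2 * (β * q)) ≤
      lvN P c (r + 1) Pt (r + 1) (ow (nb + M₀)) (ow (nb + M₀)) - (ow (nb + M₀) - w) + (a - w)
    rw [hlvn (r + 1) le_rfl, hownn]
    exact n7
  · show bet (P₂ (r + 1)) c (r + 1) a w + β * q + C * (ζ * q) + 2 * (2 * (β * q)) + ζ / 2 * q ≤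
      lvN P c (r + 1) Pt (r + 1) (ow nb) (ow nb) + 2 * (a - w)
    rw [hlvt (r + 1) le_rfl]
    exact n8
  · show Eb (r + 1) + lvN P c (r + 1) Pt l (ow nb) (ow nb) + 2 * (a - w) + C * (ζ * q) ≤ 1
    rw [hlvt l hl]
    refine n10 _ ?_
    have := hrt l hl
    linarith
  · show Eb (r + 1) + lvN P c (r + 1) Pt l (ow nb) (ow nb) + max (κ₂ * q) 0 +
      2 * (ζ / 2 * q) + C * (ζ * q) ≤ 1
    rw [hlvt l hl]
    refine n11 _ ?_
    have := hrt l hl
    linarith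
  · show bet (P₂ (r + 1)) c (r + 1) a w + β * q ≤
      lvN P c (r + 1) Pt (r + 1) (ow nb) (ow nb) + (a - w) + ζ * q + 2 * (β * q)
    rw [hlvt (r + 1) le_rfl]
    exact n12
  · rw [hownb]; linarith
  · obtain ⟨z1, z2, z3, z4, z5, z6, z7⟩ := hJ₁ J hJ
    refine ⟨z1, fun k' _ => z2 k', z3 nb, z4 nb, ?_, ?_⟩
    · rw [hownb]
      exact z5 nb
    · rw [hownb]
      exact z6 nb
  · refine Bas.mono J₁ (hbas.and HM.nzm) ?_
    rintro J hJ F A ⟨h1, V, z, z', G', hG'⟩ κ' g₀' Gc H' hκ' hW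
    obtain ⟨z1, z2, z3, z4, z5, z6, z7⟩ := hJ₁ J hJ
    have hJ0 : (0 : ℝ) ≤ J := Nat.cast_nonneg J
    have hNz := nzm_nzw hG' (show 1 < M₀ + 2 by omega)
    obtain ⟨B, hB, hPB, hE⟩ := h1 hκ' hW ⟨fun k' _ => ⟨0, by omega, z2 k'⟩,
      fun k' _ => ⟨0, by omega, z2 (cb * M₀ + k')⟩,
      ⟨1, by omega, 2, le_rfl, (z3 0).trans (mul_le_mul_of_nonneg_right (by linarith) hJ0), z7 0⟩⟩
      (V 1) (z 1) (z' 1) (G' 1) hNz
    have hlb := Pool.GRD.LbP.of hNz.1.lb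
    have hw1e : t + chV M₀ cb (ks 1) * q = ow nb := by rw [hks1, hok]
    refine ⟨B, fun x => G' 1 (z 1 x), fun s' => G' 1 (z' 1 s'), hB, hPB, fun y => hlb.deg _,
      fun s' => hlb.deg _, fun y b b' h2 h3 => hlb.dep _ b b' h2 fun i hi => ?_,
      fun s' b b' h2 h3 => hlb.dep _ b b' h2 fun i hi => ?_, fun ω hω => ?_, ?_⟩
    · obtain ⟨l, hl, rfl⟩ := mem_image.1 hi
      exact h3 l (mem_range.1 hl)
    · obtain ⟨l, hl, rfl⟩ := mem_image.1 hi
      exact h3 l (mem_range.1 hl)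
    · have h2 : z 1 (ptr F J ω) =
          z' 1 (slam F ⌊(t + chV M₀ cb (ks 1) * q) * J⌋₊ ω) := hlb.cls ω (hB ω hω)
      rw [hw1e] at h2
      show G' 1 (z 1 (ptr F J ω)) = G' 1 (z' 1 (slam F ⌊ow nb * J⌋₊ ω))
      rw [h2]
    · rw [← hnb] at hE
      rw [hownb]
      exact hE

end Pool.VTL19
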