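import Pool.Agent.H19.VTL.Rec
import Pool.Agent.H16.ROW.Teq

/-!
# The named parts `VtL k`, `VeL k`

`vtL_all`, `veL_all`: the small rate of a thin target over a steeper coordinate, over a coordinate of
its slope, for all kinds of this coordinate.
-/

set_option autoImplicit false

namespace Pool.VTL19

open Pool.Agent.H49.Ent Pool.Agent.H32.Dense Pool.STK Pool.KA Pool.KSAT Pool.K2S Pool.PB
open Pool.GEN Pool.PKG Pool.SW Pool.ALT Pool.ASM Pool.OWN68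
open Pool.LA91 (FaQ sumQ HerQ her_sum her_fa aePG_fa aePG_sum)
open Pool.V0F (ChUQ AttUQ her_chU aePG_chU her_attU aePG_attU)
open Pool.VT83 Pool.VE16

/-- **Small rate** over a coordinate which is not slower than the target. -/
theorem vtl_low {Φ : (ℕ → Kg) → (ℕ → ℝ) → Prop}
    (hΦ : ∀ κ Sl, Φ κ Sl → Sl 0 = 1 ∧ Sl 1 = 1 ∧ 1 < Sl 3 ∧ Sl 3 ≤ Sl 2) :
    ∃ (ι : Type) (_ : Countable ι) (Q : PropG 4 ι), AePG 4 Q ∧ HerQ Q ∧
    ∀ h : ℝ, 0 < h → h ≤ 1 → ∀ (Sl : ℕ → ℝ) (κ : ℕ → Kg), Φ κ Sl → KgT 4 κ Sl →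
      ∀ (b : PosR) (D : ℕ), VoidZ 4 h Sl κ Q
        (fun e : PosR => LowE (AdmN 2) (Sl 3 * Real.log 2 - b) D e) := by
  refine ⟨(Unit ⊕ Unit) ⊕ (ℕ × ℕ × ℚ × ℚ), inferInstance,
    sumQ (sumQ (ChUQ : PropG 4 Unit) (AttUQ : PropG 4 Unit)) (FaQ : PropG 4 (ℕ × ℕ × ℚ × ℚ)),
    aePG_sum (aePG_sum (aePG_chU 4) (her_chU 4) (aePG_attU 4)) (her_sum (her_chU 4) (her_attU 4))
      (aePG_fa 4), her_sum (her_sum (her_chU 4) (her_attU 4)) (her_fa 4),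
    fun h _ _ Sl κ hS hK b D => ?_⟩
  obtain ⟨h0, h1, h3, h2⟩ := hΦ κ Sl hS
  rw [admN_eq]
  refine vtl_void (r := 2) (by norm_num) (fun l hl => ?_) hK.tar h3 h2 ?_
  · rw [hK.one l (by omega)]
    interval_cases l
    · exact h0
    · exact h1
  · have := b.2
    linarith

/-- **`VtL k`** for all kinds. -/
theorem vtL_all (k : Kg) : VtL k :=
  vtl_low (Φ := Nv2 k) fun _ _ h => ⟨h.2.1, h.2.2.1, h.2.2.2.1, h.2.2.2.2.le⟩

/-- **`VeL k`** for all kinds. -/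
theorem veL_all (k : Kg) : VeL k :=
  vtl_low (Φ := Ne2 k) fun _ _ h => ⟨h.2.1, h.2.2.1, h.2.2.2.1, h.2.2.2.2.ge⟩

end Pool.VTL19
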